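import Pool.Agent.H75.GD.Pt

/-!
ROW GDCv (project MP_b8729f_GI, block D, about 100 lines): the parts cover the conflict sets. Use the STATEMENTS of Pt (part_n, part_r, part_q, part_x) and `parts_mk` (Df.lean).

PROOF. Fix `g, v`; `o_i = N (g,i) v ∈ bl G v 1` (`bl_self`, `bl_adj`: `o_i = v` or adjacent). `parts_mk` with `ι = Fin 3 ⊕ (Fin 3 × Fin w)` (cardinality `3 + 3 * w`) and `T`: `inl 0, inl 1, inl 2 ↦ PN v, PR v, PQ v`; `inr (0,i), inr (1,i), inr (2,i) ↦ PR o_i, PX (g,i) v, PX (g,i) o_i`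
(it may be easier to use `ι = Fin 3 ⊕ (Fin 3 × Fin w)` with a match, or `Option (Option Unit) ⊕ ..`; any finite type of this cardinality). Cover: `z ∈ CS G N R g v`: `z ≠ v` and
(a) `G.Adj v z`: `z ∈ PN v` if some `N α v = z`; else `z ∈ PR v` if some `R ρ v = z`; else `z ∈ PQ v`.
(b) `z = R ρ o_i`: if `z = o_i` then `z = N (g,i) v ≠ v` is adjacent to `v`: case (a); else `z ∈ PR o_i`. (c) `z = N (g,i) (R ρ v)`: if `R ρ v = v` then `z = N (g,i) v ≠ v` is adjacent to `v`: (a). If `z = R ρ v` then `z` is adjacent to `v` (`z ≠ v`): (a). Else `z ∈ PX (g,i) v`.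
(d) `z = N (g,i) (R ρ o_i)`: if `R ρ o_i = o_i` then `z = N (g,i) o_i = v` (`invN`), contradiction. If `z = R ρ o_i` then `z ≠ o_i` and `z ∈ PR o_i`. Else `z ∈ PX (g,i) o_i`.
-/

set_option autoImplicit false
set_option linter.unusedSectionVars false

namespace Pool.Agent.H75.GD

open Finset Classical Pool.Agent.H65.GI

section
variable {V : Type} [Fintype V] {G : SimpleGraph V} {s w r K : ℕ} {side : V → Bool} {D : Finset V}
  {N : Fin s × Fin w → V → V} {R : Fin r → V → V}

theorem cs_parts (ht : TL G 33) (h : IsBase G s w r K side D N R) (hs : 2 ≤ s) :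
    Parts G (CS G N R) (3 + 3 * w) (w + 1) := by
  intro g v
  have hbv : v ∈ bl G v 1 := by
    simp [bl]
  have hbo : ∀ i : Fin w, N (g, i) v ∈ bl G v 1 := by
    intro i
    by_cases hi : N (g, i) v = v
    · rw [hi]
      exact hbv
    · have := h.adjN (g, i) v hi
      simp [bl, this]
  refine parts_mk (ι := Fin 3 ⊕ (Fin 3 × Fin w)) (by simp)
    (fun x => match x with
      | Sum.inl 0 => PN N v
      | Sum.inl 1 => PR R v
      | Sum.inl 2 => PQ G N R v
      | Sum.inr (0, i) => PR R (N (g, i) v)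
      | Sum.inr (1, i) => PX N R (g, i) v
      | Sum.inr (2, i) => PX N R (g, i) (N (g, i) v)) ?_ ?_
  · rintro (x | ⟨x, i⟩)
    · fin_cases x
      · exact part_n ht h hs hbv
      · exact part_r ht h hs hbv
      · exact part_q ht h hs hbv
    · fin_cases x
      · exact part_r ht h hs (hbo i)
      · exact part_x ht h hs i hbv
      · exact part_x ht h hs i (hbo i)
  · intro z hz
    unfold CS at hz
    obtain ⟨hzv, hz⟩ := (mem_filter.1 hz).2
    have caseA : G.Adj v z → ∃ x : Fin 3 ⊕ (Fin 3 × Fin w), z ∈ (match x with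
      | Sum.inl 0 => PN N v
      | Sum.inl 1 => PR R v
      | Sum.inl 2 => PQ G N R v
      | Sum.inr (0, i) => PR R (N (g, i) v)
      | Sum.inr (1, i) => PX N R (g, i) v
      | Sum.inr (2, i) => PX N R (g, i) (N (g, i) v)) := by
      intro ha
      by_cases h1 : ∃ α, N α v = z
      · refine ⟨Sum.inl 0, ?_⟩
        show z ∈ PN N v
        unfold PN
        exact mem_filter.2 ⟨mem_univ _, hzv, h1⟩
      by_cases h2 : ∃ ρ, R ρ v = z
      · refine ⟨Sum.inl 1, ?_⟩
        show z ∈ PR R v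
        unfold PR
        exact mem_filter.2 ⟨mem_univ _, hzv, h2⟩
      · refine ⟨Sum.inl 2, ?_⟩
        show z ∈ PQ G N R v
        unfold PQ
        exact mem_filter.2 ⟨mem_univ _, ha, fun α hα => h1 ⟨α, hα⟩, fun ρ hρ => h2 ⟨ρ, hρ⟩⟩
    rcases hz with hz | ⟨i, ρ, hz | hz | hz⟩
    · exact caseA hz
    · by_cases h1 : z = N (g, i) v
      · apply caseA
        rw [h1]
        exact h.adjN _ _ (by rw [← h1]; exact hzv)
      · refine ⟨Sum.inr (0, i), ?_⟩
        show z ∈ PR R (N (g, i) v)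
        unfold PR
        exact mem_filter.2 ⟨mem_univ _, h1, ρ, hz.symm⟩
    · by_cases h1 : R ρ v = v
      · rw [h1] at hz
        apply caseA
        rw [hz]
        exact h.adjN _ _ (by rw [← hz]; exact hzv)
      by_cases h2 : z = R ρ v
      · apply caseA
        rw [h2]
        exact h.adjR _ _ h1
      · refine ⟨Sum.inr (1, i), ?_⟩
        show z ∈ PX N R (g, i) v
        unfold PX
        exact mem_filter.2 ⟨mem_univ _, ρ, h1, hz.symm, h2⟩
    · by_cases h1 : R ρ (N (g, i) v) = N (g, i) v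
      · rw [h1, h.invN] at hz
        exact absurd hz hzv
      by_cases h2 : z = R ρ (N (g, i) v)
      · refine ⟨Sum.inr (0, i), ?_⟩
        show z ∈ PR R (N (g, i) v)
        unfold PR
        exact mem_filter.2 ⟨mem_univ _, by rw [h2]; exact h1, ρ, h2.symm⟩
      · refine ⟨Sum.inr (2, i), ?_⟩
        show z ∈ PX N R (g, i) (N (g, i) v)
        unfold PX
        exact mem_filter.2 ⟨mem_univ _, ρ, h1, hz.symm, h2⟩

end

end Pool.Agent.H75.GD
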