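import Pool.Agent.H75.GD.Df

/-!
ROW GDFq (project MP_b8729f_GI, block D, about 110 lines): frugality: from sets of pairs to numbers of indices.

PROOF. fq1: `F = univ.image (fun ρ => (R ρ v, c))`. `P = univ.filter (fun ρ => f (R ρ v) = c)`, `P₀ = P.filter (fun ρ => R ρ v = v)`, `P₁` the rest. `P₀.card ≤ 1` by `on` (`(univ.filter (fun ρ => R ρ v = v)).card ≤ 1`). `ρ ↦ (R ρ v, c)` maps `P₁` injectively (`disR`) into `F.filter (fun p => f p.1 = p.2)`: `P₁.card ≤`.
fq2: the same with `ρ ↦ (N a (R ρ v), a.1)` (`N a` is injective, `invN`). fq3: `a ↦ (N a v, a.1)`, injective on the `a` with `N a v ≠ v` (`disN`), and at most one `a` has `N a v = v` (`on`).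
near: `R ρ v`, `N a v` are `v` or adjacent to `v` (`adjR`, `adjN`; `bl_self`, `bl_adj`, `bl_mono`). card: `card_image_le`.
-/

set_option autoImplicit false
set_option linter.unusedSectionVars false

namespace Pool.Agent.H75.GD

open Finset Classical Pool.Agent.H65.GI

section
variable {V : Type} [Fintype V] {G : SimpleGraph V} {s w r K : ℕ} {side : V → Bool} {D : Finset V}
  {N : Fin s × Fin w → V → V} {R : Fin r → V → V}

private theorem Fq_gen {ι α : Type} [Fintype ι] [DecidableEq α] (g : ι → α) (P : ι → Prop)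
    (Q : α → Prop) (bad : ι → Prop) [DecidablePred P] [DecidablePred Q] [DecidablePred bad]
    (hPQ : ∀ i, P i → Q (g i)) (hb : (univ.filter bad).card ≤ 1)
    (hinj : ∀ i j, i ≠ j → ¬ bad i → g i ≠ g j) :
    (univ.filter P).card ≤ ((univ.image g).filter Q).card + 1 := by
  have h1 : univ.filter P ⊆ (univ.filter (fun i => P i ∧ ¬ bad i)) ∪ univ.filter bad := by
    intro i hi
    by_cases hbi : bad i
    · exact mem_union_right _ (mem_filter.2 ⟨mem_univ _, hbi⟩)
    · exact mem_union_left _ (mem_filter.2 ⟨mem_univ _, (mem_filter.1 hi).2, hbi⟩)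
  have h2 : (univ.filter (fun i => P i ∧ ¬ bad i)).card ≤ ((univ.image g).filter Q).card := by
    refine card_le_card_of_injOn g ?_ ?_
    · intro i hi
      have hi' := (mem_filter.1 (mem_coe.1 hi)).2
      exact mem_coe.2 (mem_filter.2 ⟨mem_image_of_mem _ (mem_univ _), hPQ i hi'.1⟩)
    · intro i hi j hj hij
      by_contra hne
      exact hinj i j hne (mem_filter.1 (mem_coe.1 hi)).2.2 hij
  calc (univ.filter P).card ≤ _ := card_le_card h1
    _ ≤ (univ.filter (fun i => P i ∧ ¬ bad i)).card + (univ.filter bad).card := card_union_le _ _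
    _ ≤ _ := Nat.add_le_add h2 hb

private theorem Fq_R (h : IsBase G s w r K side D N R) (v : V) :
    (univ.filter (fun ρ : Fin r => R ρ v = v)).card ≤ 1 :=
  le_trans (Nat.le_add_left _ _) (h.on v)

private theorem Fq_N (h : IsBase G s w r K side D N R) (v : V) :
    (univ.filter (fun a : Fin s × Fin w => N a v = v)).card ≤ 1 :=
  le_trans (Nat.le_add_right _ _) (h.on v)

theorem fq1 (h : IsBase G s w r K side D N R) (f : V → Fin s) (v : V) (c : Fin s) :
    (univ.filter (fun ρ : Fin r => f (R ρ v) = c)).card ≤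
      ((univ.image (fun ρ : Fin r => (R ρ v, c))).filter (fun p => f p.1 = p.2)).card + 1 := by
  refine Fq_gen (fun ρ : Fin r => (R ρ v, c)) (fun ρ => f (R ρ v) = c)
    (fun p => f p.1 = p.2) (fun ρ => R ρ v = v) (fun _ hi => hi) (Fq_R h v) ?_
  intro i j hij hb he
  exact h.disR i j v hij hb (congrArg Prod.fst he)

theorem fq2 (h : IsBase G s w r K side D N R) (f : V → Fin s) (v : V) (a : Fin s × Fin w) :
    (univ.filter (fun ρ : Fin r => f (N a (R ρ v)) = a.1)).card ≤
      ((univ.image (fun ρ : Fin r => (N a (R ρ v), a.1))).filter (fun p => f p.1 = p.2)).card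
        + 1 := by
  refine Fq_gen (fun ρ : Fin r => (N a (R ρ v), a.1)) (fun ρ => f (N a (R ρ v)) = a.1)
    (fun p => f p.1 = p.2) (fun ρ => R ρ v = v) (fun _ hi => hi) (Fq_R h v) ?_
  intro i j hij hb he
  have h1 : N a (R i v) = N a (R j v) := congrArg Prod.fst he
  have h2 := congrArg (N a) h1
  rw [h.invN, h.invN] at h2
  exact h.disR i j v hij hb h2

theorem fq3 (h : IsBase G s w r K side D N R) (f : V → Fin s) (v : V) :
    (univ.filter (fun a : Fin s × Fin w => f (N a v) = a.1)).card ≤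
      ((univ.image (fun a : Fin s × Fin w => (N a v, a.1))).filter (fun p => f p.1 = p.2)).card
        + 1 := by
  refine Fq_gen (fun a : Fin s × Fin w => (N a v, a.1)) (fun a => f (N a v) = a.1)
    (fun p => f p.1 = p.2) (fun a => N a v = v) (fun _ hi => hi) (Fq_N h v) ?_
  intro i j hij hb he
  exact h.disN i j v hij hb (congrArg Prod.fst he)

private theorem Fq_near {v x y : V} {k : ℕ} (hx : x ∈ bl G v k) (hy : y ≠ x → G.Adj x y) :
    y ∈ bl G v (k + 1) := by
  by_cases hxy : y = x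
  · rw [hxy]
    exact bl_mono G v (Nat.le_succ k) hx
  · exact bl_adj G hx (hy hxy)

theorem fqn (h : IsBase G s w r K side D N R) (v : V) :
    (∀ c : Fin s, (univ.image (fun ρ : Fin r => (R ρ v, c))).card ≤ r ∧
      ∀ p ∈ univ.image (fun ρ : Fin r => (R ρ v, c)), p.1 ∈ bl G v 9) ∧
    (∀ a : Fin s × Fin w, (univ.image (fun ρ : Fin r => (N a (R ρ v), a.1))).card ≤ r ∧
      ∀ p ∈ univ.image (fun ρ : Fin r => (N a (R ρ v), a.1)), p.1 ∈ bl G v 9) ∧
    (univ.image (fun a : Fin s × Fin w => (N a v, a.1))).card ≤ s * w ∧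
      ∀ p ∈ univ.image (fun a : Fin s × Fin w => (N a v, a.1)), p.1 ∈ bl G v 9 := by
  have hr : (univ : Finset (Fin r)).card = r := by
    rw [card_univ, Fintype.card_fin]
  have hsw : (univ : Finset (Fin s × Fin w)).card = s * w := by
    rw [card_univ, Fintype.card_prod, Fintype.card_fin, Fintype.card_fin]
  have h1 : ∀ ρ : Fin r, R ρ v ∈ bl G v 1 := fun ρ =>
    Fq_near (bl_self G v 0) (fun hne => h.adjR ρ v hne)
  have h2 : ∀ (a : Fin s × Fin w) (ρ : Fin r), N a (R ρ v) ∈ bl G v 2 := fun a ρ =>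
    Fq_near (h1 ρ) (fun hne => h.adjN a _ hne)
  have h3 : ∀ a : Fin s × Fin w, N a v ∈ bl G v 1 := fun a =>
    Fq_near (bl_self G v 0) (fun hne => h.adjN a v hne)
  refine ⟨fun c => ⟨card_image_le.trans hr.le, ?_⟩, fun a => ⟨card_image_le.trans hr.le, ?_⟩,
    card_image_le.trans hsw.le, ?_⟩
  · intro p hp
    obtain ⟨ρ, _, rfl⟩ := mem_image.1 hp
    exact bl_mono G v (by norm_num) (h1 ρ)
  · intro p hp
    obtain ⟨ρ, _, rfl⟩ := mem_image.1 hp
    exact bl_mono G v (by norm_num) (h2 a ρ)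
  · intro p hp
    obtain ⟨a, _, rfl⟩ := mem_image.1 hp
    exact bl_mono G v (by norm_num) (h3 a)

end

end Pool.Agent.H75.GD
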