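import Pool.Agent.H75.GD.Df

/-!
ROW GDHo (project MP_b8729f_GI, block D, about 60 lines): the holes of a label.

PROOF. Let `f a = α.1`; `α = (α.1, α.2)`. `hFb a : f a ∉ FB N R a` (definition of `FB`, with `c = f a = α.1`, `i = α.2`) gives fn, fr, fnr. `z ∈ CS G N R (f a) a` gives `f z ≠ f a` (hC). n1: `N α a ≠ a` (fn), so `N α a` is adjacent to `a`: in `CS`.
rn: `z = R ρ (N α a)` is in `CS` if `z ≠ a`; `z = a`: `N α (N α a) = a = R ρ (N α a)` and `N α (N α a) = a ≠ N α a`: contradiction to `disNR` at `N α a`. nr: `z = N α (R ρ a)`; `z = a` gives `R ρ a = N α a ≠ a`: `disNR` at `a`.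
nrn: `z = N α (R ρ (N α a))`; `z = a` gives `R ρ (N α a) = N α a`: contradiction to fr.
-/

set_option autoImplicit false
set_option linter.unusedSectionVars false

namespace Pool.Agent.H75.GD

open Finset Classical Pool.Agent.H65.GI

section
variable {V : Type} [Fintype V] {G : SimpleGraph V} {s w r K : ℕ} {side : V → Bool} {D : Finset V}
  {N : Fin s × Fin w → V → V} {R : Fin r → V → V}

theorem hol_of (h : IsBase G s w r K side D N R) {f : V → Fin s} (hFb : ∀ v, f v ∉ FB N R v)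
    (hC : ∀ v, ∀ z ∈ CS G N R (f v) v, f z ≠ f v) (α : Fin s × Fin w) :
    Hol (N α) R (fun v => f v = α.1) := by
  obtain ⟨c, i⟩ := α
  have hF : ∀ a, f a = c → N (c, i) a ≠ a ∧ (∀ ρ, R ρ (N (c, i) a) ≠ N (c, i) a) ∧
      ∀ ρ, N (c, i) (R ρ (N (c, i) a)) ≠ R ρ (N (c, i) a) := by
    intro a ha
    have h1 := hFb a
    rw [ha] at h1
    refine ⟨fun h2 => ?_, fun ρ h2 => ?_, fun ρ h2 => ?_⟩
    · exact h1 (Finset.mem_filter.2 ⟨Finset.mem_univ _, i, Or.inl h2⟩)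
    · exact h1 (Finset.mem_filter.2 ⟨Finset.mem_univ _, i, Or.inr ⟨ρ, Or.inl h2⟩⟩)
    · exact h1 (Finset.mem_filter.2 ⟨Finset.mem_univ _, i, Or.inr ⟨ρ, Or.inr h2⟩⟩)
  have hC' : ∀ a z, f a = c → z ≠ a → (G.Adj a z ∨ ∃ (i : Fin w) (ρ : Fin r),
      z = R ρ (N (c, i) a) ∨ z = N (c, i) (R ρ a) ∨ z = N (c, i) (R ρ (N (c, i) a))) →
      f z ≠ c := by
    intro a z ha hz h1
    have h2 := hC a z (by
      rw [ha]
      exact Finset.mem_filter.2 ⟨Finset.mem_univ _, hz, h1⟩)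
    rwa [ha] at h2
  refine ⟨?_, ?_, ?_, ?_, fun a ha => (hF a ha).1, fun a ρ ha => (hF a ha).2.1 ρ,
    fun a ρ ha => (hF a ha).2.2 ρ⟩
  · intro a ha
    have h1 := (hF a ha).1
    exact hC' a _ ha h1 (Or.inl (h.adjN _ _ h1))
  · intro a ρ ha
    have h1 := (hF a ha).1
    refine hC' a _ ha ?_ (Or.inr ⟨i, ρ, Or.inl rfl⟩)
    intro h2
    refine h.disNR (c, i) ρ (N (c, i) a) ?_ ?_
    · rw [h.invN]
      exact h1.symm
    · rw [h.invN, h2]
  · intro a ρ ha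
    have h1 := (hF a ha).1
    refine hC' a _ ha ?_ (Or.inr ⟨i, ρ, Or.inr (Or.inl rfl)⟩)
    intro h2
    refine h.disNR (c, i) ρ a h1 ?_
    have h3 := congrArg (N (c, i)) h2
    rw [h.invN] at h3
    exact h3.symm
  · intro a ρ ha
    refine hC' a _ ha ?_ (Or.inr ⟨i, ρ, Or.inr (Or.inr rfl)⟩)
    intro h2
    have h3 := congrArg (N (c, i)) h2
    rw [h.invN] at h3
    exact (hF a ha).2.1 ρ h3

end

end Pool.Agent.H75.GD
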