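import Mathlib

/-!
ROW GDNu (project MP_b8729f_GI, block D, about 90 lines, pure): the inequalities for large `Δ`.

PROOF. `Real.rpow`; all are statements for all large natural `Δ`: use `Filter.eventually_atTop` and `tendsto_rpow_atTop` (`Δ^(1/100) → ∞`, composed with `tendsto_natCast_atTop_atTop`), or choose `Δ0` directly. Put `t = Δ^(1/100) ≥ 1`; `Δ^(1/50) = t^2`, `Δ^(38/25) = Δ^(3/2) t^2`, `Δ^(13/25) = Δ^(1/2) t^2`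
(`Real.rpow_add`, `Real.rpow_mul`, `Real.sqrt_eq_rpow`; `√(Δ^3) = Δ^(3/2)`). (1) `t + 1 ≤ t^2` for `t ≥ 2`. (2) `8 c^2 ≤ t^2` for `t ≥ 8c^2 + 1`. (3) for `Y = √(Δ^3)` or `Y = √Δ` (`Y ≥ 1`): `t Y + K (t + 1) + K t ≤ t Y + 3 K t ≤ t Y (1 + 3K) ≤ t^2 Y` for `t ≥ 1 + 3 K`.
-/

set_option autoImplicit false

namespace Pool.Agent.H75.GD

private theorem Nu_gen (t Y k : ℝ) (hk : 0 ≤ k) (ht1 : 1 ≤ t) (ht : 1 + 3 * k ≤ t) (hY : 1 ≤ Y) :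
    t * Y + k * (t + 1) + k * t ≤ Y * t ^ 2 := by
  have h1 : k * (t + 1) + k * t ≤ 3 * k * t := by nlinarith
  have h2 : 3 * k * t ≤ 3 * k * t * Y := by
    apply le_mul_of_one_le_right _ hY
    positivity
  have h3 : t * Y * (1 + 3 * k) ≤ t * Y * t := by
    apply mul_le_mul_of_nonneg_left ht
    positivity
  nlinarith

theorem numer (c K : ℕ) : ∃ Δ0 : ℕ, ∀ Δ : ℕ, Δ0 ≤ Δ →
    (1 : ℝ) ≤ (Δ : ℝ) ∧ (Δ : ℝ) ^ (1 / 100 : ℝ) + 1 ≤ (Δ : ℝ) ^ (1 / 50 : ℝ) ∧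
    8 * (c : ℝ) ^ 2 ≤ (Δ : ℝ) ^ (1 / 50 : ℝ) ∧
    (Δ : ℝ) ^ (1 / 100 : ℝ) * Real.sqrt ((Δ : ℝ) ^ 3) + K * ((Δ : ℝ) ^ (1 / 100 : ℝ) + 1) +
      K * (Δ : ℝ) ^ (1 / 100 : ℝ) ≤ (Δ : ℝ) ^ (38 / 25 : ℝ) ∧
    (Δ : ℝ) ^ (1 / 100 : ℝ) * Real.sqrt (Δ : ℝ) + K * ((Δ : ℝ) ^ (1 / 100 : ℝ) + 1) +
      K * (Δ : ℝ) ^ (1 / 100 : ℝ) ≤ (Δ : ℝ) ^ (13 / 25 : ℝ) := by
  obtain ⟨M, hM⟩ : ∃ M : ℕ, M = 8 * c ^ 2 + 3 * K + 2 := ⟨_, rfl⟩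
  refine ⟨M ^ 100, fun Δ hΔ => ?_⟩
  have hM1 : 1 ≤ M := by omega
  have hM2 : 8 * c ^ 2 + 1 ≤ M := by omega
  have hM3 : 1 + 3 * K ≤ M := by omega
  have hM4 : 2 ≤ M := by omega
  have hΔ1 : 1 ≤ Δ := le_trans (Nat.one_le_pow _ _ hM1) hΔ
  have hR1 : (1 : ℝ) ≤ (Δ : ℝ) := by exact_mod_cast hΔ1
  have hR0 : (0 : ℝ) < (Δ : ℝ) := lt_of_lt_of_le one_pos hR1
  have hMR : ((M : ℝ)) ^ (100 : ℕ) ≤ (Δ : ℝ) := by exact_mod_cast hΔ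
  obtain ⟨t, ht⟩ : ∃ t : ℝ, t = (Δ : ℝ) ^ (1 / 100 : ℝ) := ⟨_, rfl⟩
  have htM : (M : ℝ) ≤ t := by
    have e : ((M : ℝ) ^ (100 : ℕ)) ^ (1 / 100 : ℝ) = (M : ℝ) := by
      rw [← Real.rpow_natCast, ← Real.rpow_mul (Nat.cast_nonneg M)]
      norm_num
    rw [ht, ← e]
    exact Real.rpow_le_rpow (by positivity) hMR (by norm_num)
  have c2 : (8 : ℝ) * (c : ℝ) ^ 2 + 1 ≤ (M : ℝ) := by exact_mod_cast hM2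
  have c3 : (1 : ℝ) + 3 * (K : ℝ) ≤ (M : ℝ) := by exact_mod_cast hM3
  have c4 : (2 : ℝ) ≤ (M : ℝ) := by exact_mod_cast hM4
  have t2 : (2 : ℝ) ≤ t := le_trans c4 htM
  have t1 : (1 : ℝ) ≤ t := by linarith
  have t3 : (1 : ℝ) + 3 * (K : ℝ) ≤ t := le_trans c3 htM
  have t4 : (8 : ℝ) * (c : ℝ) ^ 2 + 1 ≤ t := le_trans c2 htM
  have e50 : (Δ : ℝ) ^ (1 / 50 : ℝ) = t ^ 2 := by
    rw [ht, ← Real.rpow_natCast, ← Real.rpow_mul hR0.le]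
    norm_num
  have e3 : Real.sqrt ((Δ : ℝ) ^ 3) = (Δ : ℝ) ^ (3 / 2 : ℝ) := by
    rw [Real.sqrt_eq_rpow, ← Real.rpow_natCast, ← Real.rpow_mul hR0.le]
    norm_num
  have e1 : Real.sqrt (Δ : ℝ) = (Δ : ℝ) ^ (1 / 2 : ℝ) := Real.sqrt_eq_rpow _
  have e38 : (Δ : ℝ) ^ (38 / 25 : ℝ) = (Δ : ℝ) ^ (3 / 2 : ℝ) * t ^ 2 := by
    rw [← e50, ← Real.rpow_add hR0]
    norm_num
  have e13 : (Δ : ℝ) ^ (13 / 25 : ℝ) = (Δ : ℝ) ^ (1 / 2 : ℝ) * t ^ 2 := by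
    rw [← e50, ← Real.rpow_add hR0]
    norm_num
  have y3 : 1 ≤ (Δ : ℝ) ^ (3 / 2 : ℝ) := Real.one_le_rpow hR1 (by norm_num)
  have y1 : 1 ≤ (Δ : ℝ) ^ (1 / 2 : ℝ) := Real.one_le_rpow hR1 (by norm_num)
  rw [e50, e38, e13, e3, e1, ← ht]
  refine ⟨hR1, ?_, ?_, ?_, ?_⟩
  · nlinarith
  · nlinarith
  · exact Nu_gen t _ (K : ℝ) (Nat.cast_nonneg K) t1 t3 y3
  · exact Nu_gen t _ (K : ℝ) (Nat.cast_nonneg K) t1 t3 y1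

end Pool.Agent.H75.GD
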