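import Pool.Agent.H75.GD.Df

/-!
ROW GDTx (project MP_b8729f_GI, block D, about 140 lines): the test `TX 2`. `W := isb_wk h α : Wk G K side D (N α) R` (H65/GI/Wkl.lean). Use `wk_seg2`, `wk_ad` (Df.lean), `wk_bl`, `mvg_mono`, `cn_up`, `nb_uni`, `tyx_le`, `wk_nb`.

PROOF. Write `x f i = xs (N α) R f v i`. `gr z := x f 1` for a chosen word `f` with `mvg .. f v 2`, `x f 2 = z` if there is one, else `v`.
dis: let `z = x f 2`, `y₀ = N α (x f 0)`, `x₁ = x f 1`, `y₁ = N α x₁`. CLAIM: every `t ∈ dp (CS G N R) z` has `Nb G y₀ x₁ k y' t` for some `k ≤ 6`, `y'`. Walk `Nb G y₀ x₁ 2 y₁ z` (`(wk_seg2 W hf 0 1 _).1`). If `t ∈ bl G z 2` (this holds for `t = z`, `t` adjacent to `z`, `t = R ρ (N a z)`, `t = N a (R ρ z)`,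
`a = (c,i)`, as `N a`, `R ρ` stay or move along an edge): `cn_up` with `n = 2`, `j = 2`. Remaining: `t = N a (R ρ (N a z))`: `u = N a z`. If `u = z` then `t = N a (R ρ z) ∈ bl G z 2`. Otherwise `u` is adjacent to `z`, and `u ≠ y₁`: `z = R ρ₀ y₁` (`ρ₀ = f (Fin.ofNat 4 1)`), so `R ρ₀ z = y₁` and `N a z = y₁`
would contradict `disNR` at `z`. So `Nb G y₀ x₁ 3 z u` (`Nb.step`) and `t ∈ bl G u 2`: `cn_up` with `n = 3`, `j = 2`.
If `t` is in `dp (CS G N R) z` and in `dp (CS G N R) z'` (words `f, f'`): `nb_uni ht` with the walks `(wk_nb W f v 2 hf).2 0 : Nb G v (N α v) (2*0+1) y₀ x₁` (level 1; `xs .. 0 = v`) gives `x₁ = x₁'`, i.e. `gr z = gr z'`.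
gsz: `z ∈ TX 2` with `gr z = u` is `R ρ (N α u)`: in `univ.image (fun ρ : Fin r => R ρ (N α u))`, cardinality `≤ r ≤ m`. num: `image gr ⊆ TX (N α) R 1 v` (`mvg_mono`), cardinality `≤ r^1` (`tyx_le`). near: `wk_bl`: `x f 2 ∈ bl G v 4 ⊆ bl G v 9`.
-/

set_option autoImplicit false
set_option linter.unusedSectionVars false

namespace Pool.Agent.H75.GD

open Finset Classical Pool.Agent.H65.GI

section
variable {V : Type} [Fintype V] {G : SimpleGraph V} {s w r K : ℕ} {side : V → Bool} {D : Finset V}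
  {N : Fin s × Fin w → V → V} {R : Fin r → V → V}

private theorem Tx_bl {v x : V} {k : ℕ} (F : V → V) (hF : F x ≠ x → G.Adj x (F x))
    (hx : x ∈ bl G v k) : F x ∈ bl G v (k + 1) := by
  by_cases h : F x = x
  · rw [h]
    exact bl_mono G v (Nat.le_succ k) hx
  · exact bl_adj G hx (hF h)

private theorem Tx_claim (h : IsBase G s w r K side D N R) (α : Fin s × Fin w) (v : V)
    {f : Fin 4 → Fin r} (hf : mvg (N α) R f v 2) {t : V}
    (ht : t ∈ dp (CS G N R) (xs (N α) R f v 2)) :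
    ∃ k y', k ≤ 6 ∧ Nb G (N α (xs (N α) R f v 0)) (xs (N α) R f v 1) k y' t := by
  have W := isb_wk h α
  obtain ⟨z, hz⟩ : ∃ z, z = xs (N α) R f v 2 := ⟨_, rfl⟩
  obtain ⟨y1, hy1⟩ : ∃ y1, y1 = N α (xs (N α) R f v 1) := ⟨_, rfl⟩
  have h2 : Nb G (N α (xs (N α) R f v 0)) (xs (N α) R f v 1) 2 y1 z := by
    rw [hz, hy1]
    exact (wk_seg2 W hf 0 1 le_rfl).1
  have hz2 : z = R (f (Fin.ofNat 4 1)) y1 := by
    rw [hz, hy1]
    rfl
  rw [← hz] at ht
  have hb0 : z ∈ bl G z 0 := bl_self G z 0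
  have case1 : t ∈ bl G z 2 →
      ∃ k y', k ≤ 6 ∧ Nb G (N α (xs (N α) R f v 0)) (xs (N α) R f v 1) k y' t := by
    intro hb
    obtain ⟨k, y', e1, e2, e3⟩ := cn_up h2 2 le_rfl t hb
    exact ⟨k, y', by omega, e1⟩
  unfold dp at ht
  rcases mem_insert.1 ht with rfl | ht
  · exact case1 (bl_mono G _ (by omega) hb0)
  · obtain ⟨c, -, hc⟩ := mem_biUnion.1 ht
    rcases (mem_filter.1 hc).2.2 with hadj | ⟨i, ρ, hr | hr | hr⟩
    · exact case1 (bl_mono G z (by omega) (bl_adj G hb0 hadj))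
    · rw [hr]
      rw [hr] at case1
      exact case1 (Tx_bl (R ρ) (h.adjR ρ _) (Tx_bl (N (c, i)) (h.adjN (c, i) _) hb0))
    · rw [hr]
      rw [hr] at case1
      exact case1 (Tx_bl (N (c, i)) (h.adjN (c, i) _) (Tx_bl (R ρ) (h.adjR ρ _) hb0))
    · by_cases hu : N (c, i) z = z
      · rw [hu] at hr
        rw [hr]
        rw [hr] at case1
        exact case1 (Tx_bl (N (c, i)) (h.adjN (c, i) _) (Tx_bl (R ρ) (h.adjR ρ _) hb0))
      · have hne : N (c, i) z ≠ y1 := by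
          intro h0
          have h3 := h.disNR (c, i) (f (Fin.ofNat 4 1)) z hu
          apply h3
          rw [h0]
          have h4 := congrArg (R (f (Fin.ofNat 4 1))) hz2
          rw [h.invR] at h4
          exact h4.symm
        have h5 := Nb.step h2 (h.adjN (c, i) z hu) hne
        have hb1 : t ∈ bl G (N (c, i) z) 2 := by
          rw [hr]
          exact Tx_bl (N (c, i)) (h.adjN (c, i) _) (Tx_bl (R ρ) (h.adjR ρ _) (bl_self G _ 0))
        obtain ⟨k, y', e1, e2, e3⟩ := cn_up h5 2 (by omega) t hb1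
        exact ⟨k, y', by omega, e1⟩

theorem test_x (ht : TL G 33) (h : IsBase G s w r K side D N R) (α : Fin s × Fin w) (v : V)
    {m : ℕ} (hm : r ≤ m) :
    ∃ gr : V → V, IsTest G (CS G N R) v (TX (N α) R 2 v) gr m r := by
  have W := isb_wk h α
  have hex : ∀ z : V, ∃ u : V, z ∈ TX (N α) R 2 v → ∃ f : Fin 4 → Fin r, mvg (N α) R f v 2 ∧
      xs (N α) R f v 2 = z ∧ u = xs (N α) R f v 1 := by
    intro z
    by_cases hz : z ∈ TX (N α) R 2 v
    · obtain ⟨f, hf, hfz⟩ := (mem_filter.1 hz).2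
      exact ⟨xs (N α) R f v 1, fun _ => ⟨f, hf, hfz, rfl⟩⟩
    · exact ⟨v, fun h0 => absurd h0 hz⟩
  choose gr hgr using hex
  refine ⟨gr, ?_, ?_, ?_, ?_⟩
  · intro x hx y hy hne
    rw [disjoint_left]
    intro t h1 h2
    apply hne
    obtain ⟨f, hf, hfx, hfu⟩ := hgr x hx
    obtain ⟨g, hg, hgy, hgu⟩ := hgr y hy
    rw [← hfx] at h1
    rw [← hgy] at h2
    obtain ⟨k, y1, hk, e1⟩ := Tx_claim h α v hf h1
    obtain ⟨k', y2, hk', e2⟩ := Tx_claim h α v hg h2
    have n1 := (wk_nb W f v 2 hf).2 0 (by omega)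
    have n2 := (wk_nb W g v 2 hg).2 0 (by omega)
    rw [hfu, hgu]
    exact (nb_uni ht n1 n2 e1 e2 (by omega) (by omega)).2
  · intro u
    have hsub : (TX (N α) R 2 v).filter (fun x => gr x = u) ⊆
        (univ : Finset (Fin r)).image (fun ρ => R ρ (N α u)) := by
      intro z hz
      obtain ⟨hz1, hz2⟩ := mem_filter.1 hz
      obtain ⟨f, hf, hfx, hfu⟩ := hgr z hz1
      refine mem_image.2 ⟨f (Fin.ofNat 4 1), mem_univ _, ?_⟩
      rw [← hz2, hfu, ← hfx]
      rfl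
    refine (card_le_card hsub).trans (card_image_le.trans ?_)
    rw [card_univ, Fintype.card_fin]
    exact hm
  · have hsub : (TX (N α) R 2 v).image gr ⊆ TX (N α) R 1 v := by
      intro u hu
      obtain ⟨z, hz, rfl⟩ := mem_image.1 hu
      obtain ⟨f, hf, hfx, hfu⟩ := hgr z hz
      exact mem_filter.2 ⟨mem_univ _, f, mvg_mono (by omega) hf, hfu.symm⟩
    refine (card_le_card hsub).trans ?_
    have h1 := (tyx_le ht W v 1 (by omega)).2
    rw [pow_one] at h1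
    exact h1
  · intro z hz
    obtain ⟨f, hf, hfx, -⟩ := hgr z hz
    rw [← hfx]
    exact bl_mono G v (by omega) (wk_bl W f v 2).1

end

end Pool.Agent.H75.GD
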