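import Pool.Agent.H75.GD.Df

/-!
ROW GDTy (project MP_b8729f_GI, block D, about 130 lines): the tests `TY j`, `j = k + 2`, `k ≤ 2`. `W := isb_wk h α : Wk G K side D (N α) R` (H65/GI/Wkl.lean). Use `wk_seg2` (Df.lean), `wk_inj`, `wk_bl`, `mvg_mono`, `nb_disj`, `tyx_le`, `wk_nb`.

PROOF. Write `x f i = xs (N α) R f v i`. `gr z := x f (k+1)` for a chosen word `f` with `mvg .. f v (k+2)` and `N α (x f (k+2)) = z` if there is one, else `v`.
dis: `z, z' ∈ TY` with chosen words `f, f'` (`z = N α (x f (k+2))`, ...) and `x f (k+1) ≠ x f' (k+1)`. `dp (CS G N R) z ⊆ bl G z 3` (`z` itself; the elements of `CS` are images of `z` under at most three maps `N`, `R`, which stay or move along an edge, or neighbours: `bl_self`, `bl_adj`, `bl_mono`). `nb_disj ht` with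
`a = v`, `b = N α v`, `n = 2k+1`, `p = N α (x f k)`, `q = x f (k+1)` (walks `(wk_nb W f v (k+2) hf).2 k`), steps `3` (`(wk_seg2 W hf k 1 _).2 : Nb G (N α (x f k)) (x f (k+1)) (2*1+1) (x f (k+1+1)) (N α (x f (k+1+1)))`, `j = 3`: `2k+1+3+3 < 33`. So the 3-balls of `z, z'` are disjoint.
gsz: `z ∈ TY` with `gr z = u` satisfies `z = N α (R ρ (N α u))`, `ρ = f (Fin.ofNat 4 (k+1))` (`xs` unfolds: `xs N R f a (i+1) = R (f (Fin.ofNat 4 i)) (N (xs N R f a i))` is `rfl`), so the filter is in `univ.image (fun ρ : Fin r => N α (R ρ (N α u)))`, cardinality `≤ r ≤ m`.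
num: `TY.image gr ⊆ TX (N α) R (k+1) v` (`mvg_mono`), cardinality `≤ r^(k+1)` (`tyx_le`, second part). near: `wk_bl`: `N (x f (k+2)) ∈ bl G v (2(k+2)+1) ⊆ bl G v 9`.
-/

set_option autoImplicit false
set_option linter.unusedSectionVars false

namespace Pool.Agent.H75.GD

open Finset Classical Pool.Agent.H65.GI

section
variable {V : Type} [Fintype V] {G : SimpleGraph V} {s w r K : ℕ} {side : V → Bool} {D : Finset V}
  {N : Fin s × Fin w → V → V} {R : Fin r → V → V}

private theorem Ty_bN (h : IsBase G s w r K side D N R) (a : Fin s × Fin w) {v x : V} {k : ℕ}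
    (hx : x ∈ bl G v k) : N a x ∈ bl G v (k + 1) := by
  by_cases h1 : N a x = x
  · rw [h1]
    exact bl_mono G v (Nat.le_succ k) hx
  · exact bl_adj G hx (h.adjN a x h1)

private theorem Ty_bR (h : IsBase G s w r K side D N R) (ρ : Fin r) {v x : V} {k : ℕ}
    (hx : x ∈ bl G v k) : R ρ x ∈ bl G v (k + 1) := by
  by_cases h1 : R ρ x = x
  · rw [h1]
    exact bl_mono G v (Nat.le_succ k) hx
  · exact bl_adj G hx (h.adjR ρ x h1)

private theorem Ty_dp (h : IsBase G s w r K side D N R) (z : V) :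
    dp (CS G N R) z ⊆ bl G z 3 := by
  intro x hx
  unfold dp at hx
  rcases Finset.mem_insert.1 hx with h1 | h1
  · rw [h1]
    exact bl_self G z 3
  · obtain ⟨c, -, h2⟩ := Finset.mem_biUnion.1 h1
    obtain ⟨-, -, h3⟩ := Finset.mem_filter.1 h2
    have h0 : z ∈ bl G z 0 := bl_self G z 0
    rcases h3 with h3 | ⟨i, ρ, h3 | h3 | h3⟩
    · exact bl_mono G z (by norm_num) (bl_adj G h0 h3)
    · rw [h3]
      exact bl_mono G z (by norm_num) (Ty_bR h ρ (Ty_bN h (c, i) h0))
    · rw [h3]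
      exact bl_mono G z (by norm_num) (Ty_bN h (c, i) (Ty_bR h ρ h0))
    · rw [h3]
      exact Ty_bN h (c, i) (Ty_bR h ρ (Ty_bN h (c, i) h0))

theorem test_y (ht : TL G 33) (h : IsBase G s w r K side D N R) (α : Fin s × Fin w) (v : V)
    (k : ℕ) (hk : k ≤ 2) {m : ℕ} (hm : r ≤ m) :
    ∃ gr : V → V, IsTest G (CS G N R) v (TY (N α) R (k + 2) v) gr m (r ^ (k + 1)) := by
  have W := isb_wk h α
  obtain ⟨gr, hgr⟩ : ∃ gr : V → V, ∀ z ∈ TY (N α) R (k + 2) v, ∃ f : Fin 4 → Fin r,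
      mvg (N α) R f v (k + 2) ∧ N α (xs (N α) R f v (k + 2)) = z ∧
      gr z = xs (N α) R f v (k + 1) := by
    refine ⟨fun z => if hz : ∃ f : Fin 4 → Fin r, mvg (N α) R f v (k + 2) ∧
      N α (xs (N α) R f v (k + 2)) = z then xs (N α) R (Classical.choose hz) v (k + 1) else v,
      fun z hz => ?_⟩
    obtain ⟨-, h1⟩ := Finset.mem_filter.1 hz
    refine ⟨Classical.choose h1, (Classical.choose_spec h1).1, (Classical.choose_spec h1).2, ?_⟩
    exact dif_pos h1
  refine ⟨gr, ?_, ?_, ?_, ?_⟩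
  · intro x hx y hy hne
    obtain ⟨f, f1, f2, f3⟩ := hgr x hx
    obtain ⟨g, g1, g2, g3⟩ := hgr y hy
    rw [f3, g3] at hne
    have n1 := (wk_nb W f v (k + 2) f1).2 k (by omega)
    have n2 := (wk_nb W g v (k + 2) g1).2 k (by omega)
    have s1 := (wk_seg2 W f1 k 1 le_rfl).2
    have s2 := (wk_seg2 W g1 k 1 le_rfl).2
    have e := nb_disj ht n1 n2 s1 s2 hne 3 (by norm_num) (by omega)
    have e1 : N α (xs (N α) R f v (k + 1 + 1)) = x := f2
    have e2 : N α (xs (N α) R g v (k + 1 + 1)) = y := g2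
    rw [e1, e2] at e
    exact Finset.disjoint_of_subset_left (Ty_dp h x)
      (Finset.disjoint_of_subset_right (Ty_dp h y) e)
  · intro u
    have h1 : (TY (N α) R (k + 2) v).filter (fun x => gr x = u) ⊆
        univ.image (fun ρ : Fin r => N α (R ρ (N α u))) := by
      intro x hx
      obtain ⟨h2, h3⟩ := Finset.mem_filter.1 hx
      obtain ⟨f, f1, f2, f3⟩ := hgr x h2
      refine Finset.mem_image.2 ⟨f (Fin.ofNat 4 (k + 1)), Finset.mem_univ _, ?_⟩
      rw [← h3, f3, ← f2]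
      rfl
    refine (Finset.card_le_card h1).trans ((Finset.card_image_le).trans ?_)
    rw [Finset.card_univ, Fintype.card_fin]
    exact hm
  · have h1 : (TY (N α) R (k + 2) v).image gr ⊆ TX (N α) R (k + 1) v := by
      intro u hu
      obtain ⟨x, hx, rfl⟩ := Finset.mem_image.1 hu
      obtain ⟨f, f1, f2, f3⟩ := hgr x hx
      exact Finset.mem_filter.2 ⟨Finset.mem_univ _, f, mvg_mono (by omega) f1, f3.symm⟩
    exact (Finset.card_le_card h1).trans (tyx_le ht W v (k + 1) (by omega)).2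
  · intro x hx
    obtain ⟨f, f1, f2, f3⟩ := hgr x hx
    rw [← f2]
    exact bl_mono G v (by omega) (wk_bl W f v (k + 2)).2

end

end Pool.Agent.H75.GD
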