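import Pool.Agent.H75.GD.Fb

/-!
ROW GDTz (project MP_b8729f_GI, block D, about 150 lines): the elements of the test sets with forbidden colours are few. Use the STATEMENT fb_near (Fb.lean); `W := isb_wk h α`; `wk_seg1`, `wk_seg2` (Df.lean), `wk_nb`, `wk_bl`, `nb_disj`, `bl_bl`, `bl_symm`.

PROOF. General counting lemma (prove it first): let `T` be a finset, `Z` a predicate, `DD` a finset with `DD.card ≤ K`, `φ : V → Fin r → V`; suppose `∀ x ∈ T, Z x → ∃ d ∈ DD, d ∈ bl G x 2` and `∀ d, ∃ y, ∀ x ∈ T, d ∈ bl G x 2 → ∃ ρ, x = φ y ρ`. Then `(T.filter Z).card ≤ K * r`, and if `A` is a predicate with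
`∀ y, ((univ.filter (fun ρ => A (φ y ρ))).card : ℝ) ≤ X` then `((T.filter (fun x => Z x ∧ A x)).card : ℝ) ≤ K * X`: `T.filter (Z ∧ A) ⊆ DD.biUnion (fun d => (univ.filter (fun ρ => A (φ (y d) ρ))).image (φ (y d)))`; `card_biUnion_le`, `card_image_le` (`0 ≤ X` as a cardinality is `≤ X`; if `V` is empty everything is `0`, or take `y = v`).
`DD = (bl G v 11).filter (· ∈ D)`, `few`. `Z x`: `FB N R x ≠ ∅`; `fb_near` gives `d ∈ D ∩ bl G x 2`; `x ∈ bl G v 9` (`wk_bl`), so `d ∈ bl G v 11` (`bl_bl`).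
tz_y, `φ y ρ = N α (R ρ y)`, `j = k + 2`: if `x = N α (x_j)`, `x' = N α (x'_j)` (words `f, f'`) and `d` is in both 2-balls, then `y_{j-1} = y'_{j-1}`, `y_i = N α (x_i)`: otherwise `nb_disj ht` with `p = x_{j-1}`, `q = y_{j-1}`, level `2(j-1)` (`(wk_nb W f v j hf).1 (j-1)`), `2` steps (`wk_seg1 W hf (j-1) 1`), radius `2`:
`2(j-1) + 2 + 2 < 33`, contradiction. So (if there is one element `x₀` with `d ∈ bl G x₀ 2` take its `y = y_{j-1}`) all `x` are `N α (R (f (Fin.ofNat 4 (j-1))) y)`.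
tz_x, `j = 2`, `φ y ρ = R ρ y`: `x = x_2`, `x' = x'_2`, `d` in both 2-balls: `x_1 = x'_1`: otherwise `nb_disj ht` with `p = y_0`, `q = x_1`, level `1` (`(wk_nb W f v 2 hf).2 0`), `2` steps (`(wk_seg2 W hf 0 1 _).1`), radius `2`. So `y_1 = y'_1` and `x = R (f (Fin.ofNat 4 1)) y_1`.
-/

set_option autoImplicit false
set_option linter.unusedSectionVars false

namespace Pool.Agent.H75.GD

open Finset Classical Pool.Agent.H65.GI

section
variable {V : Type} [Fintype V] {G : SimpleGraph V} {s w r K : ℕ} {side : V → Bool} {D : Finset V}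
  {N : Fin s × Fin w → V → V} {R : Fin r → V → V}

private theorem Tz_count (T : Finset V) (Z : V → Prop) (DD : Finset V) (hDD : DD.card ≤ K)
    (φ : V → Fin r → V) (v : V) (h1 : ∀ x ∈ T, Z x → ∃ d ∈ DD, d ∈ bl G x 2)
    (h2 : ∀ d, ∃ y, ∀ x ∈ T, d ∈ bl G x 2 → ∃ ρ, x = φ y ρ) :
    (T.filter Z).card ≤ K * r ∧
    ∀ (A : V → Prop) (X : ℝ), (∀ y, ((univ.filter (fun ρ => A (φ y ρ))).card : ℝ) ≤ X) →
      ((T.filter (fun x => Z x ∧ A x)).card : ℝ) ≤ K * X := by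
  choose y hy using h2
  constructor
  · have hsub : T.filter Z ⊆ DD.biUnion (fun d => univ.image (φ (y d))) := by
      intro x hx
      obtain ⟨hx1, hx2⟩ := mem_filter.1 hx
      obtain ⟨d, hd, hdx⟩ := h1 x hx1 hx2
      obtain ⟨ρ, hρ⟩ := hy d x hx1 hdx
      exact mem_biUnion.2 ⟨d, hd, mem_image.2 ⟨ρ, mem_univ _, hρ.symm⟩⟩
    calc (T.filter Z).card ≤ (DD.biUnion (fun d => univ.image (φ (y d)))).card := card_le_card hsub
      _ ≤ DD.card * r := by
          apply card_biUnion_le_card_mul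
          intro d _
          exact card_image_le.trans (by simp)
      _ ≤ K * r := Nat.mul_le_mul_right _ hDD
  · intro A X hX
    have hX0 : 0 ≤ X := le_trans (Nat.cast_nonneg _) (hX v)
    have hsub : T.filter (fun x => Z x ∧ A x) ⊆
        DD.biUnion (fun d => (univ.filter (fun ρ => A (φ (y d) ρ))).image (φ (y d))) := by
      intro x hx
      obtain ⟨hx1, hx2, hx3⟩ := mem_filter.1 hx
      obtain ⟨d, hd, hdx⟩ := h1 x hx1 hx2
      obtain ⟨ρ, hρ⟩ := hy d x hx1 hdx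
      refine mem_biUnion.2 ⟨d, hd, mem_image.2 ⟨ρ, mem_filter.2 ⟨mem_univ _, ?_⟩, hρ.symm⟩⟩
      rw [← hρ]
      exact hx3
    have h3 : ((T.filter (fun x => Z x ∧ A x)).card : ℝ) ≤
        ∑ d ∈ DD, (((univ.filter (fun ρ => A (φ (y d) ρ))).card : ℕ) : ℝ) := by
      have h4 : (T.filter (fun x => Z x ∧ A x)).card ≤
          ∑ d ∈ DD, (univ.filter (fun ρ => A (φ (y d) ρ))).card :=
        (card_le_card hsub).trans (card_biUnion_le.trans (sum_le_sum fun d _ => card_image_le))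
      exact_mod_cast h4
    calc ((T.filter (fun x => Z x ∧ A x)).card : ℝ) ≤ _ := h3
      _ ≤ ∑ d ∈ DD, X := sum_le_sum fun d _ => hX (y d)
      _ = DD.card * X := by rw [sum_const, nsmul_eq_mul]
      _ ≤ K * X := by
          have : (DD.card : ℝ) ≤ K := by exact_mod_cast hDD
          exact mul_le_mul_of_nonneg_right this hX0

/-- the point of `D` near `x` is in the ball of radius `11` of `v` -/
private theorem Tz_near (h : IsBase G s w r K side D N R) {v x : V} (hx : x ∈ bl G v 9)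
    (hF : FB N R x ≠ ∅) : ∃ d ∈ (bl G v 11).filter (fun z => z ∈ D), d ∈ bl G x 2 := by
  obtain ⟨d, hd, hdx⟩ := fb_near h hF
  exact ⟨d, mem_filter.2 ⟨bl_bl G hx hdx, hd⟩, hdx⟩

theorem tz_y (ht : TL G 33) (h : IsBase G s w r K side D N R) (α : Fin s × Fin w) (v : V)
    (k : ℕ) (hk : k ≤ 2) :
    ((TY (N α) R (k + 2) v).filter (fun x => FB N R x ≠ ∅)).card ≤ K * r ∧
    ∀ (A : V → Prop) (X : ℝ), (∀ y, ((univ.filter (fun ρ => A (N α (R ρ y)))).card : ℝ) ≤ X) →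
      (((TY (N α) R (k + 2) v).filter (fun x => FB N R x ≠ ∅ ∧ A x)).card : ℝ) ≤ K * X := by
  have W := isb_wk h α
  have h1 : ∀ x ∈ TY (N α) R (k + 2) v, FB N R x ≠ ∅ →
      ∃ d ∈ (bl G v 11).filter (fun z => z ∈ D), d ∈ bl G x 2 := by
    intro x hx hF
    obtain ⟨f, hf, rfl⟩ := (mem_filter.1 hx).2
    exact Tz_near h (bl_mono G v (by omega) (wk_bl W f v (k + 2)).2) hF
  have h2 : ∀ d, ∃ y, ∀ x ∈ TY (N α) R (k + 2) v, d ∈ bl G x 2 → ∃ ρ, x = N α (R ρ y) := by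
    intro d
    by_cases hex : ∃ x ∈ TY (N α) R (k + 2) v, d ∈ bl G x 2
    · obtain ⟨x0, hx0, hd0⟩ := hex
      obtain ⟨f0, hf0, rfl⟩ := (mem_filter.1 hx0).2
      refine ⟨N α (xs (N α) R f0 v (k + 1)), ?_⟩
      intro x hx hd
      obtain ⟨f, hf, rfl⟩ := (mem_filter.1 hx).2
      have hq : N α (xs (N α) R f v (k + 1)) = N α (xs (N α) R f0 v (k + 1)) := by
        by_contra hne
        have a1 := (wk_nb W f v (k + 2) hf).1 (k + 1) (by omega)
        have a2 := (wk_nb W f0 v (k + 2) hf0).1 (k + 1) (by omega)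
        have a3 := wk_seg1 W hf (k + 1) 1 (by omega)
        have a4 := wk_seg1 W hf0 (k + 1) 1 (by omega)
        have a5 := nb_disj ht a1 a2 a3 a4 hne 2 (by omega) (by omega)
        exact disjoint_left.1 a5 hd hd0
      refine ⟨f (Fin.ofNat 4 (k + 1)), ?_⟩
      show _ = N α (R (f (Fin.ofNat 4 (k + 1))) (N α (xs (N α) R f0 v (k + 1))))
      rw [← hq]
      rfl
    · exact ⟨v, fun x hx hd => absurd ⟨x, hx, hd⟩ hex⟩
  obtain ⟨k1, k2⟩ := Tz_count (G := G) (TY (N α) R (k + 2) v) (fun x => FB N R x ≠ ∅)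
    ((bl G v 11).filter (fun z => z ∈ D)) (h.few v) (fun y ρ => N α (R ρ y)) v h1 h2
  exact ⟨by convert k1, fun A X hX => by convert k2 A X hX⟩

theorem tz_x (ht : TL G 33) (h : IsBase G s w r K side D N R) (α : Fin s × Fin w) (v : V) :
    ((TX (N α) R 2 v).filter (fun x => FB N R x ≠ ∅)).card ≤ K * r ∧
    ∀ (A : V → Prop) (X : ℝ), (∀ y, ((univ.filter (fun ρ => A (R ρ y))).card : ℝ) ≤ X) →
      (((TX (N α) R 2 v).filter (fun x => FB N R x ≠ ∅ ∧ A x)).card : ℝ) ≤ K * X := by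
  have W := isb_wk h α
  have h1 : ∀ x ∈ TX (N α) R 2 v, FB N R x ≠ ∅ →
      ∃ d ∈ (bl G v 11).filter (fun z => z ∈ D), d ∈ bl G x 2 := by
    intro x hx hF
    obtain ⟨f, hf, rfl⟩ := (mem_filter.1 hx).2
    exact Tz_near h (bl_mono G v (by omega) (wk_bl W f v 2).1) hF
  have h2 : ∀ d, ∃ y, ∀ x ∈ TX (N α) R 2 v, d ∈ bl G x 2 → ∃ ρ, x = R ρ y := by
    intro d
    by_cases hex : ∃ x ∈ TX (N α) R 2 v, d ∈ bl G x 2
    · obtain ⟨x0, hx0, hd0⟩ := hex
      obtain ⟨f0, hf0, rfl⟩ := (mem_filter.1 hx0).2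
      refine ⟨N α (xs (N α) R f0 v 1), ?_⟩
      intro x hx hd
      obtain ⟨f, hf, rfl⟩ := (mem_filter.1 hx).2
      have hq : xs (N α) R f v 1 = xs (N α) R f0 v 1 := by
        by_contra hne
        have a1 := (wk_nb W f v 2 hf).2 0 (by omega)
        have a2 := (wk_nb W f0 v 2 hf0).2 0 (by omega)
        have a3 := (wk_seg2 W hf 0 1 (by omega)).1
        have a4 := (wk_seg2 W hf0 0 1 (by omega)).1
        have a5 := nb_disj ht a1 a2 a3 a4 hne 2 (by omega) (by omega)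
        exact disjoint_left.1 a5 hd hd0
      refine ⟨f (Fin.ofNat 4 1), ?_⟩
      show _ = R (f (Fin.ofNat 4 1)) (N α (xs (N α) R f0 v 1))
      rw [← hq]
      rfl
    · exact ⟨v, fun x hx hd => absurd ⟨x, hx, hd⟩ hex⟩
  obtain ⟨k1, k2⟩ := Tz_count (G := G) (TX (N α) R 2 v) (fun x => FB N R x ≠ ∅)
    ((bl G v 11).filter (fun z => z ∈ D)) (h.few v) (fun y ρ => R ρ y) v h1 h2
  exact ⟨by convert k1, fun A X hX => by convert k2 A X hX⟩

end

end Pool.Agent.H75.GD
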