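import Pool.Agent.H75.GD.Sy
import Pool.Agent.H75.GD.Cv
import Pool.Agent.H75.GD.Ty
import Pool.Agent.H75.GD.Tx
import Pool.Agent.H75.GD.Tz
import Pool.Agent.H75.GD.Fq
import Pool.Agent.H75.GD.Ho
import Pool.Agent.H75.GD.Nu

/-!
MP_b8729f, project GI, block D: the colouring theorem (assembly).
-/

set_option autoImplicit false
set_option linter.unusedSectionVars false

namespace Pool.Agent.H75.GD

open Finset Classical Pool.Agent.H65.GI

section

private lemma Co_num {pb t X1 e : ℝ} {K r a a0 a1 n n0 n1 : ℕ} (ha : a = a0 + a1)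
    (hn : n = n0 + n1) (h1 : |(a0 : ℝ) - pb * n0| ≤ e) (h2 : (a1 : ℝ) ≤ K * X1)
    (h3 : n1 ≤ K * r) (hpb : 0 ≤ pb) (hpr : pb * r ≤ t) :
    |(a : ℝ) - pb * n| ≤ e + K * X1 + K * t := by
  have e1 : (a : ℝ) - pb * n = ((a0 : ℝ) - pb * n0) + (a1 - pb * n1) := by
    rw [ha, hn]
    push_cast
    ring
  rw [e1]
  refine (abs_add_le _ _).trans ?_
  have h4 : (n1 : ℝ) ≤ K * r := by exact_mod_cast h3
  have h5 : pb * n1 ≤ K * t := by
    calc pb * n1 ≤ pb * (K * r) := mul_le_mul_of_nonneg_left h4 hpb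
      _ = K * (pb * r) := by ring
      _ ≤ K * t := mul_le_mul_of_nonneg_left hpr (Nat.cast_nonneg _)
  have h6 : 0 ≤ pb * n1 := mul_nonneg hpb (Nat.cast_nonneg _)
  have h7 : (0 : ℝ) ≤ a1 := Nat.cast_nonneg _
  have h8 : |(a1 : ℝ) - pb * n1| ≤ K * X1 + K * t := by
    rw [abs_le]
    constructor <;> linarith
  linarith

private lemma Co_nat {w K c Δ : ℕ} (hw : 1 ≤ w) (hc : c = 16 * w + 3 * K + 3)
    (hΔ : 16 * w ≤ Δ) : Δ ≤ c * (Δ / (8 * w)) ∧ 2 ≤ Δ / (8 * w) ∧ Δ / (8 * w) * w ≤ Δ ∧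
      Δ + 3 * (Δ / 8 * w) ≤ c * Δ ∧ 3 * Δ ≤ c * Δ := by
  have h8 : 0 < 8 * w := by omega
  have h2 : 2 ≤ Δ / (8 * w) := by
    rw [Nat.le_div_iff_mul_le h8]
    omega
  have h3 : Δ < 8 * w * (Δ / (8 * w) + 1) := Nat.lt_mul_div_succ Δ h8
  set q := Δ / (8 * w) with hq
  have hr : Δ / 8 ≤ Δ := Nat.div_le_self _ _
  refine ⟨?_, h2, ?_, ?_, ?_⟩
  · have h4 : 8 * w * (q + 1) ≤ 16 * w * q := by nlinarith
    have h5 : 16 * w * q ≤ c * q := Nat.mul_le_mul_right _ (by omega)
    omega
  · have h4 : q * (8 * w) ≤ Δ := Nat.div_mul_le_self _ _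
    nlinarith
  · have h4 : Δ / 8 * w ≤ Δ * w := Nat.mul_le_mul_right _ hr
    have h5 : (1 + 3 * w) * Δ ≤ c * Δ := Nat.mul_le_mul_right _ (by omega)
    nlinarith
  · exact Nat.mul_le_mul_right _ (by omega)

private lemma Co_split {V : Type} [Fintype V] {s : ℕ} (F : V → Finset (Fin s)) (T : Finset V)
    (A : V → Prop) : T.card = (T.filter (fun x => F x = ∅)).card +
        (T.filter (fun x => F x ≠ ∅)).card ∧
      (T.filter A).card = ((T.filter (fun x => F x = ∅)).filter A).card +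
        (T.filter (fun x => F x ≠ ∅ ∧ A x)).card := by
  refine ⟨(card_filter_add_card_filter_not (fun x => F x = ∅)).symm, ?_⟩
  rw [← card_filter_add_card_filter_not (s := T.filter A) (fun x => F x = ∅)]
  congr 2
  · ext x
    simp only [mem_filter]
    tauto
  · ext x
    simp only [mem_filter]
    tauto

private lemma Co_dec {V : Type} (P : V → Prop) (i1 i2 : DecidablePred P) (T : Finset V) :
    (@Finset.filter V P i1 T).card = (@Finset.filter V P i2 T).card := by
  rw [Subsingleton.elim i1 i2]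

end

theorem colr (hB : Top.Base) (hN : Top.Nibble) : Top.Colr := by
  intro w hw
  obtain ⟨K, Δ1, hB1⟩ := hB w hw
  set c : ℕ := 16 * w + 3 * K + 3 with hc
  obtain ⟨Δ2, hN1⟩ := hN c (by omega)
  obtain ⟨Δ3, hnum⟩ := numer c K
  refine ⟨K, max (max Δ1 Δ2) (max Δ3 (16 * w)), fun Δ hΔ V _ G hG ht => ?_⟩
  have g1 : Δ1 ≤ Δ := ((le_max_left _ _).trans (le_max_left _ _)).trans hΔ
  have g2 : Δ2 ≤ Δ := ((le_max_right _ _).trans (le_max_left _ _)).trans hΔ
  have g3 : Δ3 ≤ Δ := ((le_max_left _ _).trans (le_max_right _ _)).trans hΔ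
  have g4 : 16 * w ≤ Δ := ((le_max_right _ _).trans (le_max_right _ _)).trans hΔ
  obtain ⟨side, D, N, R, hb⟩ := hB1 Δ g1 V G hG ht
  obtain ⟨m0, m1, m2, m3, m4⟩ := hnum Δ g3
  obtain ⟨s1, s2, s3, s4, s5⟩ := Co_nat hw hc g4
  generalize hs : Δ / (8 * w) = s at *
  have hsΔ : s ≤ Δ := by rw [← hs]; exact Nat.div_le_self _ _
  have hr8 : Δ / 8 ≤ Δ := Nat.div_le_self _ _
  generalize hr : Δ / 8 = r at *
  have hsys := sys_mono (cs_sys hG hb) s4
  have hparts : Parts G (CS G N R) c c :=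
    parts_mono (by omega) (by omega) (cs_parts ht hb s2)
  have hfb : ∀ v, (FB N R v).card ≤ c := fun v => (fb_card hb v).trans (by omega)
  -- the tests
  have hr3 : r ^ 3 ≤ Δ ^ 3 := Nat.pow_le_pow_left hr8 3
  have htst : ∀ (τ : ((Fin s × Fin w) ⊕ (Fin s × Fin w)) ⊕ (Fin s × Fin w)) (v : V),
      ∃ gr : V → V, IsTest G (CS G N R) v
        (Sum.elim (Sum.elim (fun α v => (TY (N α) R 4 v).filter (fun x => FB N R x = ∅))
          (fun α v => (TY (N α) R 2 v).filter (fun x => FB N R x = ∅)))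
          (fun α v => (TX (N α) R 2 v).filter (fun x => FB N R x = ∅)) τ v) gr Δ
        (Sum.elim (Sum.elim (fun _ => Δ ^ 3) (fun _ => Δ)) (fun _ => Δ) τ) := by
    intro τ v
    rcases τ with (α | α) | α
    · obtain ⟨gr, hgr⟩ := test_y ht hb α v 2 (by norm_num) hr8
      have h1 := test_mono (filter_subset (fun x => FB N R x = ∅) _) hgr
      exact ⟨gr, h1.dis, h1.gsz, h1.num.trans hr3, h1.near⟩
    · obtain ⟨gr, hgr⟩ := test_y ht hb α v 0 (by norm_num) hr8
      have h1 := test_mono (filter_subset (fun x => FB N R x = ∅) _) hgr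
      exact ⟨gr, h1.dis, h1.gsz, h1.num.trans (by simpa using hr8), h1.near⟩
    · obtain ⟨gr, hgr⟩ := test_x ht hb α v hr8
      have h1 := test_mono (filter_subset (fun x => FB N R x = ∅) _) hgr
      exact ⟨gr, h1.dis, h1.gsz, h1.num.trans hr8, h1.near⟩
  choose gr hgr using htst
  have hcardT : Fintype.card (((Fin s × Fin w) ⊕ (Fin s × Fin w)) ⊕ (Fin s × Fin w)) ≤
      c * Δ := by
    simp only [Fintype.card_sum, Fintype.card_prod, Fintype.card_fin]
    omega
  have hcardF : Fintype.card (Fin s ⊕ ((Fin s × Fin w) ⊕ Unit)) ≤ c * Δ := by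
    simp only [Fintype.card_sum, Fintype.card_prod, Fintype.card_fin, Fintype.card_unit]
    omega
  obtain ⟨pb, hp1, hp2, f, f1, f2, f3, f4⟩ := hN1 Δ g2 V G hG s s1 hsΔ (CS G N R) hsys hparts
    (FB N R) hfb (((Fin s × Fin w) ⊕ (Fin s × Fin w)) ⊕ (Fin s × Fin w))
    (Fin s ⊕ ((Fin s × Fin w) ⊕ Unit)) hcardT hcardF _ gr
    (Sum.elim (Sum.elim (fun α => α.1) (fun α => α.1)) (fun α => α.1))
    (Sum.elim (Sum.elim (fun _ => Δ ^ 3) (fun _ => Δ)) (fun _ => Δ))
    (by
      rintro ((α | α) | α)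
      · exact ⟨Nat.one_le_pow _ _ (by omega), le_refl _⟩
      · exact ⟨by simp only [Sum.elim_inl, Sum.elim_inr]; omega, by
          simp only [Sum.elim_inl, Sum.elim_inr]; exact Nat.le_self_pow (by norm_num) _⟩
      · exact ⟨by simp only [Sum.elim_inr]; omega, by
          simp only [Sum.elim_inr]; exact Nat.le_self_pow (by norm_num) _⟩)
    hgr
    (by
      rintro ((α | α) | α) v x hx <;> exact (mem_filter.1 hx).2)
    (Sum.elim (fun cc v => univ.image (fun ρ : Fin r => (R ρ v, cc)))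
      (Sum.elim (fun a v => univ.image (fun ρ : Fin r => (N a (R ρ v), a.1)))
        (fun _ v => univ.image (fun a : Fin s × Fin w => (N a v, a.1)))))
    (by
      rintro (cc | a | u) v
      · exact ⟨((fqn hb v).1 cc).1.trans (by omega), ((fqn hb v).1 cc).2⟩
      · exact ⟨((fqn hb v).2.1 a).1.trans (by omega), ((fqn hb v).2.1 a).2⟩
      · exact ⟨((fqn hb v).2.2).1.trans (by omega), ((fqn hb v).2.2).2⟩)
  set t : ℝ := (Δ : ℝ) ^ (1 / 100 : ℝ) with ht'
  have hΔ0 : (0 : ℝ) < Δ := by linarith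
  have ht0 : 0 ≤ t := Real.rpow_nonneg hΔ0.le _
  have hc2 : (0 : ℝ) < 8 * (c : ℝ) ^ 2 := by
    have : (1 : ℝ) ≤ c := by
      have : 1 ≤ c := by omega
      exact_mod_cast this
    positivity
  have hpb0 : 0 ≤ pb := le_trans (by positivity) hp1
  have hpr : pb * r ≤ t := by
    have h1 : (r : ℝ) ≤ Δ := by exact_mod_cast hr8
    calc pb * r ≤ pb * Δ := mul_le_mul_of_nonneg_left h1 hpb0
      _ ≤ t / Δ * Δ := mul_le_mul_of_nonneg_right hp2 hΔ0.le
      _ = t := div_mul_cancel₀ _ hΔ0.ne'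
  -- frugality
  have F1 : ∀ v cc, ((univ.filter (fun ρ : Fin r => f (R ρ v) = cc)).card : ℝ) ≤ t + 1 := by
    intro v cc
    have h1 : ((univ.filter (fun ρ : Fin r => f (R ρ v) = cc)).card : ℝ) ≤
        (((univ.image (fun ρ : Fin r => (R ρ v, cc))).filter
          (fun p => f p.1 = p.2)).card : ℝ) + 1 := by
      exact_mod_cast fq1 hb f v cc
    have h2 := f4 (Sum.inl cc) v
    exact h1.trans (add_le_add_left h2 1)
  have F2 : ∀ v (a : Fin s × Fin w),
      ((univ.filter (fun ρ : Fin r => f (N a (R ρ v)) = a.1)).card : ℝ) ≤ t + 1 := by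
    intro v a
    have h1 : ((univ.filter (fun ρ : Fin r => f (N a (R ρ v)) = a.1)).card : ℝ) ≤
        (((univ.image (fun ρ : Fin r => (N a (R ρ v), a.1))).filter
          (fun p => f p.1 = p.2)).card : ℝ) + 1 := by
      exact_mod_cast fq2 hb f v a
    have h2 := f4 (Sum.inr (Sum.inl a)) v
    exact h1.trans (add_le_add_left h2 1)
  have F3 : ∀ v, ((univ.filter (fun a : Fin s × Fin w => f (N a v) = a.1)).card : ℝ) ≤
      t + 1 := by
    intro v
    have h1 : ((univ.filter (fun a : Fin s × Fin w => f (N a v) = a.1)).card : ℝ) ≤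
        (((univ.image (fun a : Fin s × Fin w => (N a v, a.1))).filter
          (fun p => f p.1 = p.2)).card : ℝ) + 1 := by
      exact_mod_cast fq3 hb f v
    have h2 := f4 (Sum.inr (Sum.inr ())) v
    exact h1.trans (add_le_add_left h2 1)
  refine ⟨side, D, N, R, f, pb, ?_, ?_, ?_⟩
  · refine le_trans ?_ hp1
    rw [div_div]
    exact one_div_le_one_div_of_le (mul_pos hc2 hΔ0) (mul_le_mul_of_nonneg_right m2 hΔ0.le)
  · refine hp2.trans ?_
    exact div_le_div_of_nonneg_right (by linarith) hΔ0.le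
  · refine ⟨hb, ?_, hol_of hb f1 f2, ?_, fun v cc => (F1 v cc).trans m1,
      fun v a => (F2 v a).trans m1, fun v => (F3 v).trans m1⟩
    · intro u v huv he
      refine f2 u v ?_ he.symm
      rw [CS, mem_filter]
      exact ⟨mem_univ _, huv.ne', Or.inl huv⟩
    · intro α
      refine ⟨fun v => ?_, fun v => ?_, fun v => ?_⟩
      · obtain ⟨h1, h2⟩ := Co_split (FB N R) (TY (N α) R 4 v) (fun x => f x = α.1)
        have h3 : |((((TY (N α) R 4 v).filter (fun x => FB N R x = ∅)).filter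
            (fun x => f x = α.1)).card : ℝ) -
            pb * (((TY (N α) R 4 v).filter (fun x => FB N R x = ∅)).card : ℝ)| ≤
            t * Real.sqrt ((Δ ^ 3 : ℕ) : ℝ) := f3 (Sum.inl (Sum.inl α)) v
        rw [Co_dec (fun x => f x = α.1) _ (fun x => Classical.propDecidable _)] at h3
        have h4 := tz_y ht hb α v 2 (by norm_num)
        have h5 := h4.2 (fun x => f x = α.1) (t + 1) (fun y => by
          have := F2 y α
          refine le_trans (le_of_eq ?_) this
          congr 2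
          ext ρ
          simp only [mem_filter])
        refine (Co_num h2 h1 h3 h5 h4.1 hpb0 hpr).trans ?_
        have h7 : Real.sqrt (((Δ ^ 3 : ℕ) : ℝ)) = Real.sqrt ((Δ : ℝ) ^ 3) := by push_cast; rfl
        rw [h7]
        exact m3
      · obtain ⟨h1, h2⟩ := Co_split (FB N R) (TY (N α) R 2 v) (fun x => f x = α.1)
        have h3 : |((((TY (N α) R 2 v).filter (fun x => FB N R x = ∅)).filter
            (fun x => f x = α.1)).card : ℝ) -
            pb * (((TY (N α) R 2 v).filter (fun x => FB N R x = ∅)).card : ℝ)| ≤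
            t * Real.sqrt (Δ : ℝ) := f3 (Sum.inl (Sum.inr α)) v
        rw [Co_dec (fun x => f x = α.1) _ (fun x => Classical.propDecidable _)] at h3
        have h4 := tz_y ht hb α v 0 (by norm_num)
        have h5 := h4.2 (fun x => f x = α.1) (t + 1) (fun y => by
          have := F2 y α
          refine le_trans (le_of_eq ?_) this
          congr 2
          ext ρ
          simp only [mem_filter])
        exact (Co_num h2 h1 h3 h5 h4.1 hpb0 hpr).trans m4
      · obtain ⟨h1, h2⟩ := Co_split (FB N R) (TX (N α) R 2 v) (fun x => f x = α.1)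
        have h3 : |((((TX (N α) R 2 v).filter (fun x => FB N R x = ∅)).filter
            (fun x => f x = α.1)).card : ℝ) -
            pb * (((TX (N α) R 2 v).filter (fun x => FB N R x = ∅)).card : ℝ)| ≤
            t * Real.sqrt (Δ : ℝ) := f3 (Sum.inr α) v
        rw [Co_dec (fun x => f x = α.1) _ (fun x => Classical.propDecidable _)] at h3
        have h4 := tz_x ht hb α v
        have h5 := h4.2 (fun x => f x = α.1) (t + 1) (fun y => by
          have := F1 y α.1
          refine le_trans (le_of_eq ?_) this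
          congr 2
          ext ρ
          simp only [mem_filter])
        exact (Co_num h2 h1 h3 h5 h4.1 hpb0 hpr).trans m4

end Pool.Agent.H75.GD
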