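import Pool.Agent.H65.GI.Tsz
import Pool.Agent.H65.GI.Top2

/-!
MP_b8729f, project GI, block D (the colouring theorem): definitions and segments of walks.
-/

set_option autoImplicit false
set_option linter.unusedSectionVars false

namespace Pool.Agent.H75.GD

open Finset Classical Pool.Agent.H65.GI

noncomputable section

section
variable {V : Type} [Fintype V] {s w r : ℕ}

/-- the neighbours along the labels -/
def PN (N : Fin s × Fin w → V → V) (o : V) : Finset V :=
  univ.filter (fun e => e ≠ o ∧ ∃ α, N α o = e)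

/-- the neighbours along the reserve -/
def PR (R : Fin r → V → V) (o : V) : Finset V :=
  univ.filter (fun e => e ≠ o ∧ ∃ ρ, R ρ o = e)

/-- the other neighbours -/
def PQ (G : SimpleGraph V) (N : Fin s × Fin w → V → V) (R : Fin r → V → V) (o : V) : Finset V :=
  univ.filter (fun e => G.Adj o e ∧ (∀ α, N α o ≠ e) ∧ ∀ ρ, R ρ o ≠ e)

/-- the ends of the paths `o - R - N α` -/
def PX (N : Fin s × Fin w → V → V) (R : Fin r → V → V) (α : Fin s × Fin w) (o : V) : Finset V :=
  univ.filter (fun e => ∃ ρ, R ρ o ≠ o ∧ N α (R ρ o) = e ∧ e ≠ R ρ o)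

end

section
variable {V : Type} [Fintype V] {G : SimpleGraph V} {r K : ℕ} {side : V → Bool} {D : Finset V}
  {N : V → V} {R : Fin r → V → V}

private lemma Df_succ (f : Fin 4 → Fin r) (a : V) (i : ℕ) :
    xs N R f a (i + 1) = R (f (Fin.ofNat 4 i)) (N (xs N R f a i)) := rfl

/-- the two edges -/
theorem wk_ad (h : Wk G K side D N R) {f : Fin 4 → Fin r} {a : V} {j : ℕ} (hm : mvg N R f a j) :
    (∀ i ≤ j, G.Adj (xs N R f a i) (N (xs N R f a i))) ∧
    (∀ i < j, G.Adj (N (xs N R f a i)) (xs N R f a (i + 1))) ∧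
    (∀ i < j, xs N R f a (i + 1) ≠ xs N R f a i) ∧
    ∀ i < j, N (xs N R f a (i + 1)) ≠ N (xs N R f a i) := by
  refine ⟨fun i hi => h.adjN _ (hm.1 i hi), fun i hi => ?_, fun i hi => ?_, fun i hi => ?_⟩
  · have h2 := hm.2 i hi
    rw [Df_succ] at h2 ⊢
    exact h.adjR _ _ h2
  · have h4 := h.disNR (f (Fin.ofNat 4 i)) (N (xs N R f a i)) (by
      rw [h.invN]
      exact (hm.1 i hi.le).symm)
    rw [h.invN] at h4
    rw [Df_succ]
    exact h4.symm
  · have h4 := h.disNR (f (Fin.ofNat 4 i)) (xs N R f a (i + 1)) (hm.1 (i + 1) hi)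
    have h5 : R (f (Fin.ofNat 4 i)) (xs N R f a (i + 1)) = N (xs N R f a i) := by
      rw [Df_succ, h.invR]
    rw [h5] at h4
    exact h4

/-- segments from the edge `x_i y_i` to `x_m y_m` -/
theorem wk_seg1 (h : Wk G K side D N R) {f : Fin 4 → Fin r} {a : V} {j : ℕ} (hm : mvg N R f a j)
    (i d : ℕ) (hd : i + d ≤ j) :
    Nb G (xs N R f a i) (N (xs N R f a i)) (2 * d) (xs N R f a (i + d)) (N (xs N R f a (i + d))) := by
  obtain ⟨h1, h2, h3, h4⟩ := wk_ad h hm
  induction d with
  | zero => exact Nb.base (h1 i hd)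
  | succ d ih =>
    have e1 := ih (by omega)
    have e2 := Nb.step e1 (h2 (i + d) (by omega)) (h3 (i + d) (by omega))
    exact Nb.step e2 (h1 (i + d + 1) (by omega)) (h4 (i + d) (by omega))

/-- segments from the edge `y_i x_{i+1}` to `x_m y_m` and to `y_{m-1} x_m` -/
theorem wk_seg2 (h : Wk G K side D N R) {f : Fin 4 → Fin r} {a : V} {j : ℕ} (hm : mvg N R f a j)
    (i d : ℕ) (hd : i + 1 + d ≤ j) :
    Nb G (N (xs N R f a i)) (xs N R f a (i + 1)) (2 * d) (N (xs N R f a (i + d)))
      (xs N R f a (i + 1 + d)) ∧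
    Nb G (N (xs N R f a i)) (xs N R f a (i + 1)) (2 * d + 1) (xs N R f a (i + 1 + d))
      (N (xs N R f a (i + 1 + d))) := by
  obtain ⟨h1, h2, h3, h4⟩ := wk_ad h hm
  have key : ∀ m, m + 1 ≤ j → ∀ n, Nb G (N (xs N R f a i)) (xs N R f a (i + 1)) n
      (N (xs N R f a m)) (xs N R f a (m + 1)) →
      Nb G (N (xs N R f a i)) (xs N R f a (i + 1)) (n + 1) (xs N R f a (m + 1))
        (N (xs N R f a (m + 1))) := by
    intro m hmj n hn
    exact Nb.step hn (h1 (m + 1) hmj) (h4 m (by omega))
  induction d with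
  | zero => exact ⟨Nb.base (h2 i (by omega)), key i (by omega) 0 (Nb.base (h2 i (by omega)))⟩
  | succ d ih =>
    obtain ⟨e1, e2⟩ := ih (by omega)
    have e0 : i + 1 + d = i + d + 1 := by omega
    rw [e0] at e2
    have e3 := Nb.step e2 (h2 (i + d + 1) (by omega)) (h3 (i + d + 1) (by omega))
    have e4 : i + 1 + (d + 1) = i + d + 1 + 1 := by omega
    have e5 : i + (d + 1) = i + d + 1 := by omega
    rw [e4, e5]
    exact ⟨e3, key (i + d + 1) (by omega) _ e3⟩

end

/-! ### monotonicity -/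

section
variable {V : Type} [Fintype V] {G : SimpleGraph V} {s : ℕ} {C : Fin s → V → Finset V}

theorem sys_mono {n n' : ℕ} (h : IsSys G C n) (hn : n ≤ n') : IsSys G C n' :=
  ⟨h.symm, h.irr, fun c v => (h.card c v).trans hn, h.near⟩

theorem part_mono {g : Fin s} {v : V} {T : Finset V} {prv : V → Finset V}
    {hub : Fin s → Finset V} {spec : V → Fin s} {h0 h0' : ℕ} (hh : h0 ≤ h0')
    (h : IsPart G C g v T prv hub spec h0) : IsPart G C g v T prv hub spec h0' :=
  ⟨h.mem, h.dis, h.out, h.hubp, fun c => (h.hubc c).trans hh, h.spc.trans hh, h.near⟩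

theorem test_mono {v : V} {T T' : Finset V} {gr : V → V} {m g : ℕ} (hT : T' ⊆ T)
    (h : IsTest G C v T gr m g) : IsTest G C v T' gr m g :=
  ⟨fun x hx y hy => h.dis x (hT hx) y (hT hy),
   fun u => (card_le_card (filter_subset_filter _ hT)).trans (h.gsz u),
   (card_le_card (image_subset_image hT)).trans h.num, hT.trans h.near⟩

/-- padding -/
theorem parts_mk {g : Fin s} {v : V} {ι : Type} [Fintype ι] {np h0 : ℕ}
    (hι : Fintype.card ι ≤ np) (T : ι → Finset V)
    (hT : ∀ i, ∃ prv hub spec, IsPart G C g v (T i) prv hub spec h0)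
    (hcov : ∀ z ∈ C g v, ∃ i, z ∈ T i) :
    ∃ (T : Fin np → Finset V) (prv : Fin np → V → Finset V)
      (hub : Fin np → Fin s → Finset V) (spec : Fin np → V → Fin s),
      (∀ z ∈ C g v, ∃ j, z ∈ T j) ∧ ∀ j, IsPart G C g v (T j) (prv j) (hub j) (spec j) h0 := by
  have hemp : ∃ prv hub spec, IsPart G C g v ∅ prv hub spec h0 := by
    refine ⟨fun _ => ∅, fun _ => ∅, fun _ => g, ?_⟩
    constructor <;> simp
  have hT' : ∀ i : Option ι, ∃ prv hub spec,
      IsPart G C g v (match i with | some i => T i | none => ∅) prv hub spec h0 := by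
    intro i
    cases i with
    | none => exact hemp
    | some i => exact hT i
  choose prv hub spec hP using hT'
  obtain ⟨e⟩ : Nonempty (ι ↪ Fin np) := by
    rw [Function.Embedding.nonempty_iff_card_le, Fintype.card_fin]
    exact hι
  set q : Fin np → Option ι := fun j => if h : ∃ i, e i = j then some (Classical.choose h) else none
    with hq
  have hqe : ∀ i, q (e i) = some i := by
    intro i
    have hex : ∃ i', e i' = e i := ⟨i, rfl⟩
    rw [hq]
    simp only [hex, dite_true]
    congr 1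
    exact e.injective (Classical.choose_spec hex)
  refine ⟨fun j => match q j with | some i => T i | none => ∅, fun j => prv (q j),
    fun j => hub (q j), fun j => spec (q j), ?_, fun j => hP (q j)⟩
  intro z hz
  obtain ⟨i, hi⟩ := hcov z hz
  refine ⟨e i, ?_⟩
  simp only [hqe]
  exact hi

theorem parts_mono {np np' h0 h0' : ℕ} (h1 : np ≤ np') (h2 : h0 ≤ h0') (h : Parts G C np h0) :
    Parts G C np' h0' := by
  intro g v
  obtain ⟨T, prv, hub, spec, hc, hP⟩ := h g v
  exact parts_mk (ι := Fin np) (by simpa using h1) T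
    (fun i => ⟨prv i, hub i, spec i, part_mono h2 (hP i)⟩) hc

end

end

end Pool.Agent.H75.GD
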