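import Pool.Agent.H75.GD.Df

/-!
ROW GDFb (project MP_b8729f_GI, block D, about 110 lines): the forbidden colours are few, and they come from a point of `D` nearby.

PROOF. `c ∈ FB N R v` iff for some `i : Fin w` (with `a = (c,i)`, `y = N a v`): (1) `y = v`, or for some `ρ` (2) `R ρ y = y` or (3) `N a (R ρ y) = R ρ y`. By `off`: a vertex fixed by some `N a` or some `R ρ` is in `D`. By `on`: for every `d` at most one label `a` has `N a d = d`
(`(univ.filter (fun a => N a d = d)).card ≤ 1`). `N a x`, `R ρ x` are `x` or adjacent to `x`: so `d = v` resp. `d = y` resp. `d = R ρ y` is in `D ∩ bl G v 2`. This proves fb_near.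
fb_card: `DD = (bl G v 11).filter (· ∈ D)`, `DD.card ≤ K` (`few`), `bl G v 2 ⊆ bl G v 11`. Every `c ∈ FB N R v` has a `d ∈ DD` with (i) `∃ i, N (c,i) d = d` or (ii) `∃ i, N (c,i) v = d ∧ d ≠ v`: in case (1) `d = v`, (i); in case (2) with `y ≠ v`: `d = y`, (ii) (if `y = v` we are in case (1)); in case (3) `d = R ρ y`, (i).
For every `d` at most one `c` satisfies (i) (`on`) and at most one `c` satisfies (ii) (`disN`: `N (c,i) v = d = N (c',i') v`, `≠ v`, gives `(c,i) = (c',i')`). So `FB N R v ⊆ DD.biUnion (fun d => univ.filter (i) ∪ univ.filter (ii))`, each set of cardinality `≤ 2` (`Finset.card_biUnion_le_card_mul`), total `≤ 2 * K ≤ 3 * K`.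
-/

set_option autoImplicit false
set_option linter.unusedSectionVars false

namespace Pool.Agent.H75.GD

open Finset Classical Pool.Agent.H65.GI

section
variable {V : Type} [Fintype V] {G : SimpleGraph V} {s w r K : ℕ} {side : V → Bool} {D : Finset V}
  {N : Fin s × Fin w → V → V} {R : Fin r → V → V}

private theorem Fb_N (h : IsBase G s w r K side D N R) (a : Fin s × Fin w) {v x : V} {k : ℕ}
    (hx : x ∈ bl G v k) : N a x ∈ bl G v (k + 1) := by
  by_cases h1 : N a x = x
  · rw [h1]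
    exact bl_mono G v (Nat.le_succ k) hx
  · exact bl_adj G hx (h.adjN a x h1)

private theorem Fb_R (h : IsBase G s w r K side D N R) (ρ : Fin r) {v x : V} {k : ℕ}
    (hx : x ∈ bl G v k) : R ρ x ∈ bl G v (k + 1) := by
  by_cases h1 : R ρ x = x
  · rw [h1]
    exact bl_mono G v (Nat.le_succ k) hx
  · exact bl_adj G hx (h.adjR ρ x h1)

private theorem Fb_DN (h : IsBase G s w r K side D N R) {a : Fin s × Fin w} {x : V}
    (hx : N a x = x) : x ∈ D := by
  by_contra hD
  exact (h.off x hD).1 a hx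

private theorem Fb_DR (h : IsBase G s w r K side D N R) {ρ : Fin r} {x : V}
    (hx : R ρ x = x) : x ∈ D := by
  by_contra hD
  exact (h.off x hD).2 ρ hx

private theorem Fb_key (h : IsBase G s w r K side D N R) {v : V} {c : Fin s}
    (hc : c ∈ FB N R v) : ∃ d ∈ D, d ∈ bl G v 2 ∧
      ((∃ i, N (c, i) d = d) ∨ ∃ i, N (c, i) v = d ∧ N (c, i) v ≠ v) := by
  obtain ⟨i, hi⟩ := (mem_filter.1 hc).2
  have hv : v ∈ bl G v 0 := bl_self G v 0
  by_cases h1 : N (c, i) v = v
  · exact ⟨v, Fb_DN h h1, bl_self G v 2, Or.inl ⟨i, h1⟩⟩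
  · rcases hi with h2 | ⟨ρ, h2 | h2⟩
    · exact absurd h2 h1
    · exact ⟨N (c, i) v, Fb_DR h h2, bl_mono G v (by omega) (Fb_N h (c, i) hv), Or.inr ⟨i, rfl, h1⟩⟩
    · exact ⟨R ρ (N (c, i) v), Fb_DN h h2, Fb_R h ρ (Fb_N h (c, i) hv), Or.inl ⟨i, h2⟩⟩

theorem fb_near (h : IsBase G s w r K side D N R) {v : V} (hv : FB N R v ≠ ∅) :
    ∃ d ∈ D, d ∈ bl G v 2 := by
  obtain ⟨c, hc⟩ := Finset.nonempty_iff_ne_empty.2 hv
  obtain ⟨d, hd, hd2, _⟩ := Fb_key h hc
  exact ⟨d, hd, hd2⟩

theorem fb_card (h : IsBase G s w r K side D N R) (v : V) : (FB N R v).card ≤ 3 * K := by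
  have hsub : FB N R v ⊆ ((bl G v 11).filter (fun x => x ∈ D)).biUnion (fun d =>
      univ.filter (fun c : Fin s => ∃ i, N (c, i) d = d) ∪
        univ.filter (fun c : Fin s => ∃ i, N (c, i) v = d ∧ N (c, i) v ≠ v)) := by
    intro c hc
    obtain ⟨d, hd, hd2, hd3⟩ := Fb_key h hc
    refine mem_biUnion.2 ⟨d, mem_filter.2 ⟨bl_mono G v (by omega) hd2, hd⟩, ?_⟩
    rcases hd3 with hd3 | hd3
    · exact mem_union_left _ (mem_filter.2 ⟨mem_univ _, hd3⟩)
    · exact mem_union_right _ (mem_filter.2 ⟨mem_univ _, hd3⟩)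
  have hcard : ∀ d ∈ (bl G v 11).filter (fun x => x ∈ D),
      (univ.filter (fun c : Fin s => ∃ i, N (c, i) d = d) ∪
        univ.filter (fun c : Fin s => ∃ i, N (c, i) v = d ∧ N (c, i) v ≠ v)).card ≤ 2 := by
    intro d _
    have h1 : (univ.filter (fun c : Fin s => ∃ i, N (c, i) d = d)).card ≤ 1 := by
      rw [Finset.card_le_one]
      intro c hc c' hc'
      obtain ⟨i, hi⟩ := (mem_filter.1 hc).2
      obtain ⟨i', hi'⟩ := (mem_filter.1 hc').2
      have h2 : (univ.filter (fun a => N a d = d)).card ≤ 1 := by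
        have h3 := h.on d
        omega
      have h4 := Finset.card_le_one.1 h2 (c, i) (mem_filter.2 ⟨mem_univ _, hi⟩) (c', i')
        (mem_filter.2 ⟨mem_univ _, hi'⟩)
      exact congrArg Prod.fst h4
    have h5 : (univ.filter (fun c : Fin s => ∃ i, N (c, i) v = d ∧ N (c, i) v ≠ v)).card ≤ 1 := by
      rw [Finset.card_le_one]
      intro c hc c' hc'
      obtain ⟨i, hi, hi0⟩ := (mem_filter.1 hc).2
      obtain ⟨i', hi', _⟩ := (mem_filter.1 hc').2
      by_contra hne
      refine h.disN (c, i) (c', i') v ?_ hi0 (hi.trans hi'.symm)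
      intro h6
      exact hne (congrArg Prod.fst h6)
    have h7 := Finset.card_union_le (univ.filter (fun c : Fin s => ∃ i, N (c, i) d = d))
      (univ.filter (fun c : Fin s => ∃ i, N (c, i) v = d ∧ N (c, i) v ≠ v))
    omega
  have h8 := Finset.card_le_card hsub
  have h9 := Finset.card_biUnion_le_card_mul _ _ 2 hcard
  have h10 := h.few v
  omega

end

end Pool.Agent.H75.GD
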