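import Pool.Agent.H75.GD.Df

/-!
ROW GDPc (project MP_b8729f_GI, block D, about 70 lines): a part of a conflict set from cones with one root `o`. Use the statements of
`H65/GI/Cne.lean` (`cone_sub`), `H65/GI/Lll.lean` (`bl_adj`, `bl_mono`, `bl_bl`) and the two fields of `TL`.

PROOF. (`x ∈ cone G o u 6` iff `∃ n < 6, ∃ y, Nb G o u n y x`.)
mem: hmem. dis: `e ≠ e'` gives `fst e ≠ fst e'` (hinj); a common `z` of the cones gives `Nb G o (fst e) n y z`, `Nb G o (fst e') n' y' z`, `n, n' < 6`: `TL.uniq` gives `fst e = fst e'`.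
out: hout and `z ∉ prv e`. hubp: let `z ∈ hub c`, `Nb G o (fst e) n y z`, `n < 6`. If `z = o`: contradiction to `TL.ne` (`n + 1 < 66`). Otherwise `G.Adj o z`, so `Nb G o z 0 o z` (`Nb.base`), and `TL.uniq` gives `z = fst e`, contradiction.
hubc, spc: hypotheses. near: `cone G o _ 6 ⊆ bl G o 6 ⊆ bl G v 7 ⊆ bl G v 9`; a hub element is `o` or adjacent to `o`, in `bl G v 2`.
-/

set_option autoImplicit false
set_option linter.unusedSectionVars false

namespace Pool.Agent.H75.GD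

open Finset Classical Pool.Agent.H65.GI

section
variable {V : Type} [Fintype V] {G : SimpleGraph V} {s w r K : ℕ} {side : V → Bool} {D : Finset V}
  {N : Fin s × Fin w → V → V} {R : Fin r → V → V}

theorem part_of (ht : TL G 33) {C : Fin s → V → Finset V} {g : Fin s} {v o : V}
    (ho : o ∈ bl G v 1) {T : Finset V} {fst : V → V} {hub : Fin s → Finset V}
    {spec : V → Fin s} {h0 : ℕ} (hmem : ∀ e ∈ T, e ∈ cone G o (fst e) 6)
    (hinj : ∀ e ∈ T, ∀ e' ∈ T, fst e = fst e' → e = e')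
    (hout : ∀ e ∈ T, ∀ c, c ≠ spec e → ∀ z ∈ C c e, z ∈ cone G o (fst e) 6 ∨ z ∈ hub c)
    (hhub : ∀ c, ∀ z ∈ hub c, z = o ∨ (G.Adj o z ∧ ∀ e ∈ T, z ≠ fst e))
    (hc : ∀ c, (hub c).card ≤ h0) (hs : (T.filter (fun e => spec e = g)).card ≤ h0) :
    IsPart G C g v T (fun e => cone G o (fst e) 6) hub spec h0 := by
  have hsub : ∀ e : V, cone G o e 6 ⊆ bl G v 9 := fun e =>
    ((cone_sub (G := G) o e 6).trans (bl_bl G ho)).trans (bl_mono G v (by omega))
  refine ⟨hmem, ?_, ?_, ?_, hc, hs, fun e _ => hsub _, ?_⟩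
  · intro e he e' he' hne
    rw [Finset.disjoint_left]
    intro z hz hz'
    obtain ⟨n, hn, y, h1⟩ := (mem_filter.1 hz).2
    obtain ⟨n', hn', y', h1'⟩ := (mem_filter.1 hz').2
    exact hne (hinj e he e' he' (ht.uniq _ _ _ _ _ _ _ _ (by omega) (by omega) h1 h1').2.1)
  · intro e he c hce z hz hzp
    exact (hout e he c hce z hz).resolve_left hzp
  · intro e he c
    rw [Finset.disjoint_left]
    intro z hz hz'
    obtain ⟨n, hn, y, h1⟩ := (mem_filter.1 hz').2
    rcases hhub c z hz with h2 | ⟨h2, h3⟩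
    · exact ht.ne _ _ _ _ _ (by omega) h1 h2
    · exact h3 e he (ht.uniq _ _ _ _ _ _ _ _ (by omega) (by omega) (Nb.base h2) h1).2.1
  · intro c z hz
    rcases hhub c z hz with h2 | ⟨h2, -⟩
    · rw [h2]
      exact bl_mono G v (by omega) ho
    · exact bl_mono G v (by omega) (bl_adj G ho h2)

end

end Pool.Agent.H75.GD
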