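import Pool.Agent.H75.GD.Df

/-!
ROW GDQa (project MP_b8729f_GI, block D, about 110 lines): the conflicts of a neighbour `e` of the root `o`.

PROOF. `x ∈ cone G o e 6` iff `∃ n < 6, ∃ y, Nb G o e n y x`. Helper (step): if `Nb G o e n y x`, `G.Adj x z` then `z = y` or `Nb G o e (n+1) x z`. `Nb G o e 0 o e` (`Nb.base he`).
So a vertex `u' ≠ o` adjacent to `e` has `Nb G o e 1 e u'` (a CHILD of `e`). Let `z ∈ CS G N R c e`: `z ≠ e` and one of four cases.
(A) `G.Adj e z`: `z = o` or `z` is a child. (B) `z = R ρ u'`, `u' = N (c,i) e`. If `u' = e`: `z = R ρ e ≠ e`, so `G.Adj e z`: case (A). If `u' = o`: `N (c,i) o = e` (`invN`), third alternative. Otherwise `u'` is a child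
(adjacent to `e` by `adjN`); `z = R ρ u'` is `u'` or adjacent to `u'` (`adjR`) and `z ≠ e`, so `Nb G o e 2 u' z`.
(C) `z = N (c,i) u'`, `u' = R ρ e`. `u' = e`: `z = N (c,i) e ≠ e` is adjacent to `e`: (A). `u' = o`: `R ρ o = e`, `z = N (c,i) o`: fourth alternative. Otherwise `u'` is a child, `z = N (c,i) u'` is `u'` or adjacent to it, and `z ≠ e`: `Nb G o e 2 u' z`.
(D) `z = N (c,i) (R ρ u')`, `u' = N (c,i) e`. `u' = e`: `z = N (c,i) (R ρ e)`: case (C). `u' = o`: third alternative. Otherwise `u'` is a child, `u'' = R ρ u'`. If `u'' = u'` then `z = N (c,i) u' = e`, contradiction. `u'' ≠ e`: otherwise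
`R ρ u' = e = N (c,i) u' ≠ u'`, contradiction to `disNR`. So `Nb G o e 2 u' u''`, and `z = N (c,i) u''` is `u''` or adjacent to it, and then `z ≠ u'`: otherwise `N (c,i) u'' = u' = R ρ u''` and `N (c,i) u'' ≠ u''`, contradiction to `disNR`. So `Nb G o e 3 u'' z`.
-/

set_option autoImplicit false
set_option linter.unusedSectionVars false

namespace Pool.Agent.H75.GD

open Finset Classical Pool.Agent.H65.GI

section
variable {V : Type} [Fintype V] {G : SimpleGraph V} {s w r K : ℕ} {side : V → Bool} {D : Finset V}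
  {N : Fin s × Fin w → V → V} {R : Fin r → V → V}

private lemma Qa_step {a b : V} {n : ℕ} {y x z : V} (h : Nb G a b n y x) (hz : G.Adj x z) :
    z = y ∨ Nb G a b (n + 1) x z := by
  by_cases hy : z = y
  · exact Or.inl hy
  · exact Or.inr (Nb.step h hz hy)

theorem cs_nbr (h : IsBase G s w r K side D N R) {o e : V} (he : G.Adj o e) {c : Fin s} {z : V}
    (hz : z ∈ CS G N R c e) :
    z ∈ cone G o e 6 ∨ z = o ∨ (∃ i, N (c, i) o = e) ∨ ∃ i ρ, R ρ o = e ∧ z = N (c, i) o := by
  have h0 : Nb G o e 0 o e := Nb.base he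
  have hc : ∀ n < 6, ∀ y x, Nb G o e n y x → x ∈ cone G o e 6 := by
    intro n hn y x hx
    simp only [cone, mem_filter, mem_univ, true_and]
    exact ⟨n, hn, y, hx⟩
  have hch : ∀ u, G.Adj e u → u = o ∨ Nb G o e 1 e u := fun u hu => Qa_step h0 hu
  have hA : ∀ z, G.Adj e z → z ∈ cone G o e 6 ∨ z = o := by
    intro z hz
    rcases hch z hz with h1 | h1
    · exact Or.inr h1
    · exact Or.inl (hc 1 (by norm_num) _ _ h1)
  have hN : ∀ i u, N (c, i) u = u ∨ G.Adj u (N (c, i) u) := by
    intro i u
    by_cases hu : N (c, i) u = u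
    · exact Or.inl hu
    · exact Or.inr (h.adjN _ _ hu)
  have hR : ∀ ρ u, R ρ u = u ∨ G.Adj u (R ρ u) := by
    intro ρ u
    by_cases hu : R ρ u = u
    · exact Or.inl hu
    · exact Or.inr (h.adjR _ _ hu)
  simp only [CS, mem_filter, mem_univ, true_and] at hz
  obtain ⟨hze, hz⟩ := hz
  -- case (C), used twice
  have hC : ∀ i ρ, z = N (c, i) (R ρ e) →
      z ∈ cone G o e 6 ∨ z = o ∨ (∃ i, N (c, i) o = e) ∨ ∃ i ρ, R ρ o = e ∧ z = N (c, i) o := by
    intro i ρ hz
    rcases hR ρ e with h1 | h1
    · rw [h1] at hz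
      rcases hN i e with h2 | h2
      · exact absurd (hz.trans h2) hze
      · rw [← hz] at h2
        rcases hA z h2 with h3 | h3
        · exact Or.inl h3
        · exact Or.inr (Or.inl h3)
    · rcases hch _ h1 with h2 | h2
      · refine Or.inr (Or.inr (Or.inr ⟨i, ρ, ?_, ?_⟩))
        · rw [← h2, h.invR]
        · rw [hz, h2]
      · left
        rcases hN i (R ρ e) with h3 | h3
        · rw [hz, h3]
          exact hc 1 (by norm_num) _ _ h2
        · rcases Qa_step h2 h3 with h4 | h4
          · exact absurd (hz.trans h4) hze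
          · rw [hz]
            exact hc 2 (by norm_num) _ _ h4
  rcases hz with hz | ⟨i, ρ, hz | hz | hz⟩
  · rcases hA z hz with h3 | h3
    · exact Or.inl h3
    · exact Or.inr (Or.inl h3)
  · rcases hN i e with h1 | h1
    · rw [h1] at hz
      rcases hR ρ e with h2 | h2
      · exact absurd (hz.trans h2) hze
      · rw [← hz] at h2
        rcases hA z h2 with h3 | h3
        · exact Or.inl h3
        · exact Or.inr (Or.inl h3)
    · rcases hch _ h1 with h2 | h2
      · refine Or.inr (Or.inr (Or.inl ⟨i, ?_⟩))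
        rw [← h2, h.invN]
      · left
        rcases hR ρ (N (c, i) e) with h3 | h3
        · rw [hz, h3]
          exact hc 1 (by norm_num) _ _ h2
        · rcases Qa_step h2 h3 with h4 | h4
          · exact absurd (hz.trans h4) hze
          · rw [hz]
            exact hc 2 (by norm_num) _ _ h4
  · exact hC i ρ hz
  · rcases hN i e with h1 | h1
    · rw [h1] at hz
      exact hC i ρ hz
    · rcases hch _ h1 with h2 | h2
      · refine Or.inr (Or.inr (Or.inl ⟨i, ?_⟩))
        rw [← h2, h.invN]
      · left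
        rcases hR ρ (N (c, i) e) with h3 | h3
        · rw [h3, h.invN] at hz
          exact absurd hz hze
        · rcases Qa_step h2 h3 with h4 | h4
          · exfalso
            refine h.disNR (c, i) ρ (N (c, i) e) ?_ ?_
            · rw [h.invN]
              exact h1.ne
            · rw [h4, h.invN]
          · rcases hN i (R ρ (N (c, i) e)) with h5 | h5
            · rw [hz, h5]
              exact hc 2 (by norm_num) _ _ h4
            · rcases Qa_step h4 h5 with h6 | h6
              · exfalso
                refine h.disNR (c, i) ρ (R ρ (N (c, i) e)) h5.ne.symm ?_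
                rw [h6, h.invR]
              · rw [hz]
                exact hc 3 (by norm_num) _ _ h6

end

end Pool.Agent.H75.GD
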