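import Pool.Agent.H75.GD.Df

/-!
ROW GDQx (project MP_b8729f_GI, block D, about 130 lines): the conflicts of `e = N α u`, `u = R ρ₀ o`, `o, u, e` different.

PROOF. `x ∈ cone G o u 6` iff `∃ n < 6, ∃ y, Nb G o u n y x`. `G.Adj o u`, `G.Adj u e`, `e ≠ o` (otherwise `N α u = o = R ρ₀ u` and `N α u ≠ u`: contradiction to `disNR`), so `Nb G o u 0 o u`, `Nb G o u 1 u e`. Helper (step): if `Nb G o u n y x`, `G.Adj x z` then
`z = y` or `Nb G o u (n+1) x z`. A vertex `u' ≠ u` adjacent to `e` has `Nb G o u 2 e u'` (a CHILD of `e`). Let `z ∈ CS G N R c e`: `z ≠ e` and one of four cases.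
(A) `G.Adj e z`: `z = u` or a child: in the cone. (B) `z = R ρ u'`, `u' = N (c,j) e`. If `u' = e`: `z = R ρ e ≠ e` is adjacent to `e`: (A). If `u' = u`: `z = R ρ u` is `u`, `o` or another neighbour of `u` (`Nb G o u 1 u z`): in the cone or `z = o`.
Otherwise `u'` is a child of `e`, `z` is `u'` or adjacent to it, `z ≠ e`: `Nb G o u 3 u' z`.
(C) `z = N (c,j) u'`, `u' = R ρ e`. `u' = e`: `z = N (c,j) e ≠ e`: (A). `u' = u`: `R ρ e = u = N α e ≠ e`: contradiction to `disNR`. Otherwise `u'` is a child of `e`, `z` is `u'` or adjacent to it, `z ≠ e`.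
(D) `z = N (c,j) (R ρ u')`, `u' = N (c,j) e`. `u' = e`: case (C). `u' = u`: then `N (c,j) u = e = N α u ≠ u`, so `(c,j) = α` (`disN`); let `u'' = R ρ u`. `u'' = u`: `z = N α u = e`, contradiction. `u'' = o`: `z = N α o`: third alternative. Otherwise `u''` is adjacent to `u`, `≠ o`: `Nb G o u 1 u u''`;
`z = N α u''` is `u''` or adjacent to it, then `z ≠ u` (otherwise `N α u'' = u = R ρ u''`, `N α u'' ≠ u''`: contradiction to `disNR`): `Nb G o u 2 u'' z`. If `u'` is neither `e` nor `u`: it is a child of `e` (adjacent by `adjN`); `u'' = R ρ u'`. `u'' = u'`: `z = N (c,j) u' = e`, contradiction.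
`u'' ≠ e` (otherwise `R ρ u' = e = N (c,j) u' ≠ u'`, `disNR`): `Nb G o u 3 u' u''`; `z = N (c,j) u''` is `u''` or adjacent to it, then `z ≠ u'` (`disNR` at `u''`: `R ρ u'' = u'`): `Nb G o u 4 u'' z`.
-/

set_option autoImplicit false
set_option linter.unusedSectionVars false

namespace Pool.Agent.H75.GD

open Finset Classical Pool.Agent.H65.GI

section
variable {V : Type} [Fintype V] {G : SimpleGraph V} {s w r K : ℕ} {side : V → Bool} {D : Finset V}
  {N : Fin s × Fin w → V → V} {R : Fin r → V → V}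

theorem cs_nd (h : IsBase G s w r K side D N R) {o u : V} {ρ₀ : Fin r} (hu : R ρ₀ o = u)
    (huo : u ≠ o) {α : Fin s × Fin w} (hne : N α u ≠ u) {c : Fin s} {z : V}
    (hz : z ∈ CS G N R c (N α u)) :
    z ∈ cone G o u 6 ∨ z = o ∨ ((∃ j, (c, j) = α) ∧ z = N α o) := by
  have hR0u : R ρ₀ u = o := by rw [← hu, h.invR]
  have hou : G.Adj o u := by
    have := h.adjR ρ₀ o (by rw [hu]; exact huo)
    rwa [hu] at this
  have hue : G.Adj u (N α u) := h.adjN α u hne
  have heo : N α u ≠ o := by
    have := h.disNR α ρ₀ u hne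
    rwa [hR0u] at this
  have hNe : N α (N α u) = u := h.invN α u
  generalize he : N α u = e at *
  have inC : ∀ n y x, n < 6 → Nb G o u n y x → x ∈ cone G o u 6 := by
    intro n y x hn hnb
    exact mem_filter.2 ⟨mem_univ _, n, hn, y, hnb⟩
  have b0 : Nb G o u 0 o u := Nb.base hou
  have b1 : Nb G o u 1 u e := Nb.step b0 hue heo
  have child : ∀ u', u' ≠ u → G.Adj e u' → Nb G o u 2 e u' := fun u' h1 h2 => Nb.step b1 h2 h1
  have hA : ∀ z, G.Adj e z → z ∈ cone G o u 6 := by
    intro z hz
    by_cases hzu : z = u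
    · rw [hzu]
      exact inC 0 o u (by norm_num) b0
    · exact inC 2 e z (by norm_num) (child z hzu hz)
  have hC : ∀ (j : Fin w) (ρ : Fin r) (z : V), z ≠ e → z = N (c, j) (R ρ e) →
      z ∈ cone G o u 6 := by
    intro j ρ z hze hz
    by_cases h1 : R ρ e = e
    · rw [h1] at hz
      have h2 := h.adjN (c, j) e (by rw [← hz]; exact hze)
      rw [← hz] at h2
      exact hA z h2
    have h2 : G.Adj e (R ρ e) := h.adjR ρ e h1
    have h3 : R ρ e ≠ u := by
      intro h4
      have h5 : N α e ≠ e := by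
        rw [hNe]
        exact hne.symm
      have h6 := h.disNR α ρ e h5
      rw [hNe, h4] at h6
      exact h6 rfl
    have h4 := child _ h3 h2
    by_cases h5 : N (c, j) (R ρ e) = R ρ e
    · rw [hz, h5]
      exact inC 2 _ _ (by norm_num) h4
    · have h6 := h.adjN (c, j) _ h5
      rw [← hz] at h6
      exact inC 3 _ _ (by norm_num) (Nb.step h4 h6 hze)
  have hz' := (mem_filter.1 hz).2
  obtain ⟨hze, hz1⟩ := hz'
  rcases hz1 with hz1 | ⟨j, ρ, hz1 | hz1 | hz1⟩
  · exact Or.inl (hA z hz1)
  · by_cases h1 : N (c, j) e = e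
    · rw [h1] at hz1
      have h2 := h.adjR ρ e (by rw [← hz1]; exact hze)
      rw [← hz1] at h2
      exact Or.inl (hA z h2)
    have h2 := h.adjN (c, j) e h1
    by_cases h3 : N (c, j) e = u
    · rw [h3] at hz1
      by_cases h4 : z = u
      · rw [h4]
        exact Or.inl (inC 0 o u (by norm_num) b0)
      by_cases h5 : z = o
      · exact Or.inr (Or.inl h5)
      have h6 := h.adjR ρ u (by rw [← hz1]; exact h4)
      rw [← hz1] at h6
      exact Or.inl (inC 1 _ _ (by norm_num) (Nb.step b0 h6 h5))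
    · have h4 := child _ h3 h2
      by_cases h5 : R ρ (N (c, j) e) = N (c, j) e
      · rw [hz1, h5]
        exact Or.inl (inC 2 _ _ (by norm_num) h4)
      · have h6 := h.adjR ρ _ h5
        rw [← hz1] at h6
        exact Or.inl (inC 3 _ _ (by norm_num) (Nb.step h4 h6 hze))
  · exact Or.inl (hC j ρ z hze hz1)
  · by_cases h1 : N (c, j) e = e
    · rw [h1] at hz1
      exact Or.inl (hC j ρ z hze hz1)
    have h2 := h.adjN (c, j) e h1
    by_cases h3 : N (c, j) e = u
    · have h4 : N (c, j) u = e := by rw [← h3, h.invN]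
      have h5 : (c, j) = α := by
        by_contra h6
        have h7 := h.disN (c, j) α u h6 (by rw [h4]; exact hne)
        rw [h4, he] at h7
        exact h7 rfl
      rw [h3, h5] at hz1
      by_cases h6 : R ρ u = u
      · rw [h6, he] at hz1
        exact absurd hz1 hze
      by_cases h7 : R ρ u = o
      · rw [h7] at hz1
        exact Or.inr (Or.inr ⟨⟨j, h5⟩, hz1⟩)
      have h8 := h.adjR ρ u h6
      have h9 := Nb.step b0 h8 h7
      by_cases h10 : N α (R ρ u) = R ρ u
      · rw [hz1, h10]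
        exact Or.inl (inC 1 _ _ (by norm_num) h9)
      · have h11 := h.adjN α _ h10
        have h12 := h.disNR α ρ _ h10
        rw [h.invR, ← hz1] at h12
        rw [← hz1] at h11
        exact Or.inl (inC 2 _ _ (by norm_num) (Nb.step h9 h11 h12))
    · have h4 := child _ h3 h2
      have h5 : R ρ (N (c, j) e) ≠ N (c, j) e := by
        intro h6
        rw [h6, h.invN] at hz1
        exact hze hz1
      have h6 : R ρ (N (c, j) e) ≠ e := by
        intro h7
        have h8 := h.disNR (c, j) ρ (N (c, j) e) (by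
          rw [h.invN]
          exact fun h9 => h1 h9.symm)
        rw [h.invN, h7] at h8
        exact h8 rfl
      have h7 := h.adjR ρ _ h5
      have h8 := Nb.step h4 h7 h6
      by_cases h9 : N (c, j) (R ρ (N (c, j) e)) = R ρ (N (c, j) e)
      · rw [hz1, h9]
        exact Or.inl (inC 3 _ _ (by norm_num) h8)
      · have h10 := h.adjN (c, j) _ h9
        have h11 := h.disNR (c, j) ρ _ h9
        rw [h.invR, ← hz1] at h11
        rw [← hz1] at h10
        exact Or.inl (inC 4 _ _ (by norm_num) (Nb.step h8 h10 h11))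

end

end Pool.Agent.H75.GD
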