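import Pool.Agent.H75.GD.Pc
import Pool.Agent.H75.GD.Qa
import Pool.Agent.H75.GD.Qx

/-!
ROW GDPt (project MP_b8729f_GI, block D, about 160 lines): the four kinds of parts (sets `PN, PR, PQ, PX` of Df.lean). Use the STATEMENTS of Pc (part_of), Qa (cs_nbr), Qx (cs_nd).

PROOF. All by `part_of ht ho`, root `o`. For PN, PR, PQ: `fst = id`, every `e ∈ T` is adjacent to `o` (`adjN`, `adjR`), so `e ∈ cone G o e 6` (`Nb.base`, `n = 0`). For a colour `≠ g`: `hs : 2 ≤ s` gives `g' ≠ g` (`Fintype.exists_ne_of_one_lt_card`, or `exists_ne` with `Fin.nontrivial`).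
part_n: `hub c = {o}`, `spec e = α.1` for a chosen `α` with `N α o = e` (if there is one, else `g`). out: `cs_nbr`: third alternative `N (c,i) o = e = N α o ≠ o` gives `(c,i) = α` by `disN` (contrapositive), so `c = spec e`, excluded; fourth: `R ρ o = e = N α o ≠ o`: `disNR`.
`#{e ∈ PN | spec e = g} ≤ w`: it is contained in `univ.image (fun i : Fin w => N (g,i) o)`. `(hub c).card = 1 ≤ w + 1`.
part_r: `spec _ = g'` (so the filter is empty), `hub c = insert o (univ.image (fun i : Fin w => N (c,i) o))` (cardinality `≤ w + 1`). out: third alternative `N (c,i) o = e = R ρ o`, `e ≠ o`: contradiction to `disNR`; fourth: `z` is in the hub. hhub: `z = N (c,i) o`: `z = o`, or `G.Adj o z` and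
`z ≠ e` for all `e = R ρ o` by `disNR`. part_q: `spec _ = g'`, `hub c = {o}`; third and fourth alternatives contradict the definition of `PQ`.
part_x: `α = (g, i)`, `fst e = N α e`: for `e = N α (R ρ o) ∈ PX`, `u = R ρ o ≠ o`, `e ≠ u`: `fst e = u` (`invN`), `e ≠ o` (`disNR` at `u`: `R ρ u = o`), `Nb G o u 1 u e`, so `e ∈ cone G o u 6`. injective: `N α` is an involution. `spec _ = g'`, hub as in part_r. out: `cs_nd` for `N α u = e`:
third alternative `z = N α o = N (c,j) o` is in the hub. hhub: as in part_r (`fst e = R ρ o`).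
-/

set_option autoImplicit false
set_option linter.unusedSectionVars false

namespace Pool.Agent.H75.GD

open Finset Classical Pool.Agent.H65.GI

section
variable {V : Type} [Fintype V] {G : SimpleGraph V} {s w r K : ℕ} {side : V → Bool} {D : Finset V}
  {N : Fin s × Fin w → V → V} {R : Fin r → V → V}

private lemma Pt_ne (hs : 2 ≤ s) (g : Fin s) : ∃ g' : Fin s, g' ≠ g := by
  have : 1 < Fintype.card (Fin s) := by
    rw [Fintype.card_fin]
    omega
  exact Fintype.exists_ne_of_one_lt_card this g

private lemma Pt_cone {o e : V} (he : G.Adj o e) : e ∈ cone G o e 6 := by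
  rw [cone, mem_filter]
  exact ⟨mem_univ _, 0, by omega, o, Nb.base he⟩

private lemma Pt_hubc (N : Fin s × Fin w → V → V) (o : V) (c : Fin s) :
    (insert o (univ.image (fun i : Fin w => N (c, i) o))).card ≤ w + 1 := by
  refine (card_insert_le _ _).trans ?_
  have h1 : (univ.image (fun i : Fin w => N (c, i) o)).card ≤ (univ : Finset (Fin w)).card :=
    card_image_le
  rw [card_univ, Fintype.card_fin] at h1
  omega

private lemma Pt_hhub (h : IsBase G s w r K side D N R) {o : V} {P : V → Prop}
    (hP : ∀ e, P e → ∃ ρ, R ρ o = e) (c : Fin s) (z : V)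
    (hz : z ∈ insert o (univ.image (fun i : Fin w => N (c, i) o))) :
    z = o ∨ (G.Adj o z ∧ ∀ e, P e → z ≠ e) := by
  rw [mem_insert, mem_image] at hz
  rcases hz with rfl | ⟨i, -, rfl⟩
  · exact Or.inl rfl
  · by_cases hz : N (c, i) o = o
    · exact Or.inl hz
    · refine Or.inr ⟨h.adjN _ _ hz, fun e he => ?_⟩
      obtain ⟨ρ, rfl⟩ := hP e he
      exact h.disNR _ _ _ hz

theorem part_n (ht : TL G 33) (h : IsBase G s w r K side D N R) (hs : 2 ≤ s) {g : Fin s} {v o : V}
    (ho : o ∈ bl G v 1) :
    ∃ prv hub spec, IsPart G (CS G N R) g v (PN N o) prv hub spec (w + 1) := by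
  classical
  have hPN : ∀ e ∈ PN N o, G.Adj o e := by
    intro e he
    rw [PN, mem_filter] at he
    obtain ⟨-, he, α, rfl⟩ := he
    exact h.adjN _ _ he
  refine ⟨_, fun _ => {o}, fun e => if hh : ∃ α, N α o = e then (Classical.choose hh).1 else g,
    part_of ht ho (fst := fun e => e) ?_ (fun e _ e' _ hee => hee) ?_ ?_ ?_ ?_⟩
  · intro e he
    exact Pt_cone (hPN e he)
  · intro e he c hc z hz
    have hh : ∃ α, N α o = e := by
      rw [PN, mem_filter] at he
      exact he.2.2
    have hne : e ≠ o := by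
      rw [PN, mem_filter] at he
      exact he.2.1
    have hα : N (Classical.choose hh) o = e := Classical.choose_spec hh
    simp only [hh, dite_true] at hc
    have hne' : N (Classical.choose hh) o ≠ o := by rw [hα]; exact hne
    rcases cs_nbr h (hPN e he) hz with h1 | h1 | ⟨i, h1⟩ | ⟨i, ρ, h1, h2⟩
    · exact Or.inl h1
    · exact Or.inr (by rw [mem_singleton]; exact h1)
    · exfalso
      by_cases h3 : Classical.choose hh = (c, i)
      · exact hc (by rw [h3])
      · exact h.disN _ _ _ h3 hne' (by rw [hα, h1])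
    · exfalso
      exact h.disNR _ ρ _ hne' (by rw [hα, h1])
  · intro c z hz
    rw [mem_singleton] at hz
    exact Or.inl hz
  · intro c
    rw [card_singleton]
    omega
  · have hsub : (PN N o).filter (fun e => (if hh : ∃ α, N α o = e then (Classical.choose hh).1 else g)
        = g) ⊆ univ.image (fun i : Fin w => N (g, i) o) := by
      intro e he
      rw [mem_filter] at he
      obtain ⟨he, hg⟩ := he
      have hh : ∃ α, N α o = e := by
        rw [PN, mem_filter] at he
        exact he.2.2
      have hα : N (Classical.choose hh) o = e := Classical.choose_spec hh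
      simp only [hh, dite_true] at hg
      rw [mem_image]
      refine ⟨(Classical.choose hh).2, mem_univ _, ?_⟩
      rw [← hg]
      exact hα
    refine (card_le_card hsub).trans ?_
    have h1 : (univ.image (fun i : Fin w => N (g, i) o)).card ≤ (univ : Finset (Fin w)).card :=
      card_image_le
    rw [card_univ, Fintype.card_fin] at h1
    omega

theorem part_r (ht : TL G 33) (h : IsBase G s w r K side D N R) (hs : 2 ≤ s) {g : Fin s} {v o : V}
    (ho : o ∈ bl G v 1) :
    ∃ prv hub spec, IsPart G (CS G N R) g v (PR R o) prv hub spec (w + 1) := by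
  classical
  obtain ⟨g', hg'⟩ := Pt_ne hs g
  have hPR : ∀ e ∈ PR R o, G.Adj o e := by
    intro e he
    rw [PR, mem_filter] at he
    obtain ⟨-, he, ρ, rfl⟩ := he
    exact h.adjR _ _ he
  refine ⟨_, fun c => insert o (univ.image (fun i : Fin w => N (c, i) o)), fun _ => g',
    part_of ht ho (fst := fun e => e) ?_ (fun e _ e' _ hee => hee) ?_ ?_ (Pt_hubc N o) ?_⟩
  · intro e he
    exact Pt_cone (hPR e he)
  · intro e he c _ z hz
    rcases cs_nbr h (hPR e he) hz with h1 | h1 | ⟨i, h1⟩ | ⟨i, ρ, h1, h2⟩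
    · exact Or.inl h1
    · exact Or.inr (by rw [mem_insert]; exact Or.inl h1)
    · exfalso
      rw [PR, mem_filter] at he
      obtain ⟨-, hne, ρ, hρ⟩ := he
      exact h.disNR (c, i) ρ o (by rw [h1]; exact hne) (by rw [h1, hρ])
    · refine Or.inr ?_
      rw [mem_insert, mem_image]
      exact Or.inr ⟨i, mem_univ _, h2.symm⟩
  · intro c z hz
    exact Pt_hhub h (P := fun e => e ∈ PR R o) (fun e he => by
      rw [PR, mem_filter] at he
      exact he.2.2) c z hz
  · rw [filter_false_of_mem (fun e _ => hg'), card_empty]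
    omega

theorem part_q (ht : TL G 33) (h : IsBase G s w r K side D N R) (hs : 2 ≤ s) {g : Fin s} {v o : V}
    (ho : o ∈ bl G v 1) :
    ∃ prv hub spec, IsPart G (CS G N R) g v (PQ G N R o) prv hub spec (w + 1) := by
  classical
  obtain ⟨g', hg'⟩ := Pt_ne hs g
  refine ⟨_, fun _ => {o}, fun _ => g',
    part_of ht ho (fst := fun e => e) ?_ (fun e _ e' _ hee => hee) ?_ ?_ ?_ ?_⟩
  · intro e he
    rw [PQ, mem_filter] at he
    exact Pt_cone he.2.1
  · intro e he c _ z hz
    rw [PQ, mem_filter] at he
    obtain ⟨-, hadj, hN, hR⟩ := he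
    rcases cs_nbr h hadj hz with h1 | h1 | ⟨i, h1⟩ | ⟨i, ρ, h1, h2⟩
    · exact Or.inl h1
    · exact Or.inr (by rw [mem_singleton]; exact h1)
    · exact absurd h1 (hN _)
    · exact absurd h1 (hR _)
  · intro c z hz
    rw [mem_singleton] at hz
    exact Or.inl hz
  · intro c
    rw [card_singleton]
    omega
  · rw [filter_false_of_mem (fun e _ => hg'), card_empty]
    omega

theorem part_x (ht : TL G 33) (h : IsBase G s w r K side D N R) (hs : 2 ≤ s) {g : Fin s} (i : Fin w)
    {v o : V} (ho : o ∈ bl G v 1) :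
    ∃ prv hub spec, IsPart G (CS G N R) g v (PX N R (g, i) o) prv hub spec (w + 1) := by
  classical
  obtain ⟨g', hg'⟩ := Pt_ne hs g
  refine ⟨_, fun c => insert o (univ.image (fun i : Fin w => N (c, i) o)), fun _ => g',
    part_of ht ho (fst := fun e => N (g, i) e) ?_ ?_ ?_ ?_ (Pt_hubc N o) ?_⟩
  · intro e he
    rw [PX, mem_filter] at he
    obtain ⟨-, ρ, hu, rfl, hne⟩ := he
    have h1 : N (g, i) (R ρ o) ≠ o := by
      have := h.disNR _ ρ _ hne
      rw [h.invR] at this
      exact this
    simp only [h.invN]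
    rw [cone, mem_filter]
    exact ⟨mem_univ _, 1, by omega, R ρ o, Nb.step (Nb.base (h.adjR _ _ hu)) (h.adjN _ _ hne) h1⟩
  · intro e _ e' _ hee
    have := congrArg (N (g, i)) hee
    simp only [h.invN] at this
    exact this
  · intro e he c _ z hz
    rw [PX, mem_filter] at he
    obtain ⟨-, ρ, hu, rfl, hne⟩ := he
    simp only [h.invN]
    rcases cs_nd h rfl hu hne hz with h1 | h1 | ⟨⟨j, h1⟩, h2⟩
    · exact Or.inl h1
    · exact Or.inr (by rw [mem_insert]; exact Or.inl h1)
    · refine Or.inr ?_
      rw [mem_insert, mem_image]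
      exact Or.inr ⟨j, mem_univ _, by rw [h2, h1]⟩
  · intro c z hz
    rcases Pt_hhub h (P := fun e => ∃ ρ, R ρ o = e) (fun e he => he) c z hz with h1 | ⟨h1, h2⟩
    · exact Or.inl h1
    · refine Or.inr ⟨h1, fun e he => ?_⟩
      rw [PX, mem_filter] at he
      obtain ⟨-, ρ, hu, rfl, hne⟩ := he
      simp only [h.invN]
      exact h2 _ ⟨ρ, rfl⟩
  · rw [filter_false_of_mem (fun e _ => hg'), card_empty]
    omega

end

end Pool.Agent.H75.GD
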