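import Pool.Agent.H75.GD.Df

/-!
ROW GDSy (project MP_b8729f_GI, block D, about 70 lines): the conflict sets are a system.

PROOF. `CS G N R c v` is the set of the `z ≠ v` with `G.Adj v z` or, for some `i, ρ`, `z = R ρ (N (c,i) v)` or `z = N (c,i) (R ρ v)` or
`z = N (c,i) (R ρ (N (c,i) v))`. symm: `Adj` is symmetric; `N (c,i)`, `R ρ` are involutions (`invN`, `invR`): `z = R ρ (N v)` iff `v = N (R ρ z)`, and `z = N (R ρ (N v))` iff `v = N (R ρ (N z))`.
irr: `z ≠ v`. card: `CS` is contained in the union of `univ.filter (G.Adj v)` (cardinality `Δ`) and of three images of `univ : Finset (Fin w × Fin r)`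
(each of cardinality `≤ w * r`). near: `N (c,i) x` is `x` or adjacent to `x` (`adjN`), `R ρ x` is `x` or adjacent to `x`: `bl_self`, `bl_adj`, `bl_mono` (H65/GI/Lll.lean); so all are in `bl G v 3`.
-/

set_option autoImplicit false
set_option linter.unusedSectionVars false

namespace Pool.Agent.H75.GD

open Finset Classical Pool.Agent.H65.GI

section
variable {V : Type} [Fintype V] {G : SimpleGraph V} {s w r K : ℕ} {side : V → Bool} {D : Finset V}
  {N : Fin s × Fin w → V → V} {R : Fin r → V → V}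

private lemma Sy_stepN (h : IsBase G s w r K side D N R) (a : Fin s × Fin w) {v x : V} {k : ℕ}
    (hx : x ∈ bl G v k) : N a x ∈ bl G v (k + 1) := by
  by_cases h1 : N a x = x
  · rw [h1]
    exact bl_mono G v (Nat.le_succ k) hx
  · exact bl_adj G hx (h.adjN a x h1)

private lemma Sy_stepR (h : IsBase G s w r K side D N R) (ρ : Fin r) {v x : V} {k : ℕ}
    (hx : x ∈ bl G v k) : R ρ x ∈ bl G v (k + 1) := by
  by_cases h1 : R ρ x = x
  · rw [h1]
    exact bl_mono G v (Nat.le_succ k) hx
  · exact bl_adj G hx (h.adjR ρ x h1)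

private lemma Sy_mem {c : Fin s} {v z : V} : z ∈ CS G N R c v ↔
    z ≠ v ∧ (G.Adj v z ∨ ∃ (i : Fin w) (ρ : Fin r),
      z = R ρ (N (c, i) v) ∨ z = N (c, i) (R ρ v) ∨ z = N (c, i) (R ρ (N (c, i) v))) := by
  unfold CS
  simp only [mem_filter, mem_univ, true_and]

private lemma Sy_img (F : Fin w × Fin r → V) :
    ((univ : Finset (Fin w × Fin r)).image F).card ≤ r * w := by
  refine card_image_le.trans ?_
  rw [card_univ, Fintype.card_prod, Fintype.card_fin, Fintype.card_fin, Nat.mul_comm]

theorem cs_sys {Δ : ℕ} (hG : Reg G Δ) (h : IsBase G s w r K side D N R) :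
    IsSys G (CS G N R) (Δ + 3 * (r * w)) := by
  refine ⟨?_, ?_, ?_, ?_⟩
  · intro c v z hz
    rw [Sy_mem] at hz ⊢
    obtain ⟨hne, hz⟩ := hz
    refine ⟨hne.symm, ?_⟩
    rcases hz with h1 | ⟨i, ρ, h1 | h1 | h1⟩
    · exact Or.inl h1.symm
    · refine Or.inr ⟨i, ρ, Or.inr (Or.inl ?_)⟩
      rw [h1, h.invR, h.invN]
    · refine Or.inr ⟨i, ρ, Or.inl ?_⟩
      rw [h1, h.invN, h.invR]
    · refine Or.inr ⟨i, ρ, Or.inr (Or.inr ?_)⟩
      rw [h1, h.invN, h.invR, h.invN]
  · intro c v hv
    rw [Sy_mem] at hv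
    exact hv.1 rfl
  · intro c v
    have hsub : CS G N R c v ⊆ univ.filter (fun u => G.Adj v u) ∪
        (((univ : Finset (Fin w × Fin r)).image (fun p => R p.2 (N (c, p.1) v))) ∪
        (((univ : Finset (Fin w × Fin r)).image (fun p => N (c, p.1) (R p.2 v))) ∪
        ((univ : Finset (Fin w × Fin r)).image (fun p => N (c, p.1) (R p.2 (N (c, p.1) v)))))) := by
      intro z hz
      rw [Sy_mem] at hz
      rcases hz.2 with h1 | ⟨i, ρ, h1 | h1 | h1⟩
      · exact mem_union_left _ (mem_filter.2 ⟨mem_univ _, h1⟩)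
      · exact mem_union_right _ (mem_union_left _ (mem_image.2 ⟨(i, ρ), mem_univ _, h1.symm⟩))
      · exact mem_union_right _ (mem_union_right _
          (mem_union_left _ (mem_image.2 ⟨(i, ρ), mem_univ _, h1.symm⟩)))
      · exact mem_union_right _ (mem_union_right _
          (mem_union_right _ (mem_image.2 ⟨(i, ρ), mem_univ _, h1.symm⟩)))
    have h2 := card_le_card hsub
    have h3 := card_union_le (univ.filter (fun u => G.Adj v u))
        (((univ : Finset (Fin w × Fin r)).image (fun p => R p.2 (N (c, p.1) v))) ∪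
        (((univ : Finset (Fin w × Fin r)).image (fun p => N (c, p.1) (R p.2 v))) ∪
        ((univ : Finset (Fin w × Fin r)).image (fun p => N (c, p.1) (R p.2 (N (c, p.1) v))))))
    have h4 := card_union_le ((univ : Finset (Fin w × Fin r)).image (fun p => R p.2 (N (c, p.1) v)))
        (((univ : Finset (Fin w × Fin r)).image (fun p => N (c, p.1) (R p.2 v))) ∪
        ((univ : Finset (Fin w × Fin r)).image (fun p => N (c, p.1) (R p.2 (N (c, p.1) v)))))
    have h5 := card_union_le ((univ : Finset (Fin w × Fin r)).image (fun p => N (c, p.1) (R p.2 v)))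
        ((univ : Finset (Fin w × Fin r)).image (fun p => N (c, p.1) (R p.2 (N (c, p.1) v))))
    have h6 := hG v
    have i1 := Sy_img (w := w) (r := r) (fun p => R p.2 (N (c, p.1) v))
    have i2 := Sy_img (w := w) (r := r) (fun p => N (c, p.1) (R p.2 v))
    have i3 := Sy_img (w := w) (r := r) (fun p => N (c, p.1) (R p.2 (N (c, p.1) v)))
    omega
  · intro c v z hz
    rw [Sy_mem] at hz
    rcases hz.2 with h1 | ⟨i, ρ, h1 | h1 | h1⟩
    · exact bl_mono G v (by omega) (bl_adj G (bl_self G v 0) h1)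
    · rw [h1]
      exact bl_mono G v (by omega) (Sy_stepR h ρ (Sy_stepN h (c, i) (bl_self G v 0)))
    · rw [h1]
      exact bl_mono G v (by omega) (Sy_stepN h (c, i) (Sy_stepR h ρ (bl_self G v 0)))
    · rw [h1]
      exact Sy_stepN h (c, i) (Sy_stepR h ρ (Sy_stepN h (c, i) (bl_self G v 0)))

end

end Pool.Agent.H75.GD
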